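import Mathlib

namespace Pool.Agent.H.MP_5d9214_an

open Finset Filter Topology

variable {X : Type} [NormedAddCommGroup X] [NormedSpace ℝ X]

/-- suppression inequality for a sequence of subspaces -/
def Unc (E : ℕ → Submodule ℝ X) (C : ℝ) : Prop :=
  ∀ y : ℕ → X, (∀ k, y k ∈ E k) → ∀ s t : Finset ℕ, s ⊆ t → ‖∑ k ∈ s, y k‖ ≤ C * ‖∑ k ∈ t, y k‖

lemma Unc.one {E : ℕ → Submodule ℝ X} {C : ℝ} (h : Unc E C) {y : ℕ → X} (hy : ∀ k, y k ∈ E k)
    {t : Finset ℕ} {k : ℕ} (hk : k ∈ t) : ‖y k‖ ≤ C * ‖∑ k ∈ t, y k‖ := by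
  simpa using h y hy {k} t (by simpa)

lemma fin_sum {E : ℕ → Submodule ℝ X} {x : X} (hx : x ∈ ⨆ k, E k) :
    ∃ y : ℕ → X, (∀ k, y k ∈ E k) ∧ ∃ t : Finset ℕ, ∀ s, t ⊆ s → ∑ k ∈ s, y k = x := by
  obtain ⟨f, h1, rfl⟩ := (Submodule.mem_iSup_iff_exists_finsupp _ _).1 hx
  exact ⟨f, h1, f.support, fun s hs => (sum_subset hs fun k _ hk => by simpa using hk).symm⟩

theorem Unc.uniq {E : ℕ → Submodule ℝ X} {C : ℝ} (h : Unc E C) {y : ℕ → X} (hy : ∀ k, y k ∈ E k)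
    (h0 : Tendsto (fun N => ∑ k ∈ range N, y k) atTop (𝓝 0)) (k : ℕ) : y k = 0 := by
  have := h0.norm.const_mul C
  rw [norm_zero, mul_zero] at this
  exact norm_le_zero_iff.1 (ge_of_tendsto this (eventually_atTop.2
    ⟨k + 1, fun N hN => h.one hy (mem_range.2 hN)⟩))

theorem Unc.ex [CompleteSpace X] {E : ℕ → Submodule ℝ X} {C : ℝ} (h : Unc E C) (hC : 0 ≤ C)
    (hf : ∀ k, FiniteDimensional ℝ (E k)) (hd : Dense ((⨆ k, E k : Submodule ℝ X) : Set X))
    (x : X) : ∃ y : ℕ → X, (∀ k, y k ∈ E k) ∧ HasSum y x := by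
  obtain ⟨z, hz, hx⟩ := mem_closure_iff_seq_limit.1 (hd x)
  choose g hg t ht using fun n => fin_sum (hz n)
  have key : ∀ n m s, ‖∑ k ∈ s, (g m k - g n k)‖ ≤ C * ‖z m - z n‖ := fun n m s => by
    have := h (fun k => g m k - g n k) (fun k => (E k).sub_mem (hg m k) (hg n k)) s
      (s ∪ (t m ∪ t n)) subset_union_left
    rwa [sum_sub_distrib (s := s ∪ _), ht m _ (by grind), ht n _ (by grind)] at this
  have hc : ∀ k, CauchySeq fun n => g n k := fun k => by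
    refine Metric.cauchySeq_iff.2 fun ε hε => ?_
    obtain ⟨N, hN⟩ := Metric.cauchySeq_iff.1 hx.cauchySeq (ε / (C + 1)) (by positivity)
    refine ⟨N, fun m hm n hn => ?_⟩
    have h1 := hN m hm n hn
    have h2 := key n m {k}
    rw [dist_eq_norm] at h1 ⊢
    rw [lt_div_iff₀ (by positivity)] at h1
    rw [sum_singleton] at h2
    nlinarith [norm_nonneg (z m - z n)]
  choose y hy using fun k => cauchySeq_tendsto_of_complete (hc k)
  refine ⟨y, fun k => (E k).closed_of_finiteDimensional.mem_of_tendsto (hy k)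
    (Eventually.of_forall fun n => hg n k), Metric.tendsto_atTop.2 fun ε hε => ?_⟩
  obtain ⟨n, hn⟩ := Metric.tendsto_atTop.1 hx (ε / (C + 1)) (by positivity)
  refine ⟨t n, fun s hs => ?_⟩
  have h1 := hn n le_rfl
  have h2 := le_of_tendsto_of_tendsto' (tendsto_finset_sum s fun k _ =>
    (hy k).sub_const (g n k)).norm ((hx.sub_const (z n)).norm.const_mul C) fun m => key n m s
  rw [sum_sub_distrib, ht n s hs, norm_sub_rev x] at h2
  rw [dist_eq_norm] at h1 ⊢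
  rw [lt_div_iff₀ (by positivity)] at h1
  have := norm_sub_le_norm_sub_add_norm_sub (∑ k ∈ s, y k) (z n) x
  linarith

/-- two subspaces are close -/
def Close (E G : Submodule ℝ X) (ε : ℝ) : Prop :=
  (∀ y ∈ E, ∃ g ∈ G, ‖y - g‖ ≤ ε * ‖g‖) ∧ ∀ g ∈ G, ∃ y ∈ E, ‖y - g‖ ≤ ε * ‖g‖

lemma close_of {J : Type} [Fintype J] (y g : J → X) {κ η : ℝ} (hκ : 0 ≤ κ)
    (h : ∀ (b : J → ℝ) i, |b i| ≤ κ * ‖∑ j, b j • g j‖) (hη : ∑ i, ‖y i - g i‖ ≤ η) :
    Close (Submodule.span ℝ (Set.range y)) (Submodule.span ℝ (Set.range g)) (κ * η) := by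
  have key : ∀ b : J → ℝ, ‖∑ j, b j • y j - ∑ j, b j • g j‖ ≤ κ * η * ‖∑ j, b j • g j‖ := fun b => by
    rw [← sum_sub_distrib, mul_right_comm]
    refine (norm_sum_le _ _).trans ((sum_le_sum fun j _ => ?_).trans
      ((mul_sum _ _ _).symm.trans_le (mul_le_mul_of_nonneg_left hη (by positivity))))
    rw [← smul_sub, norm_smul]
    exact mul_le_mul_of_nonneg_right (h b j) (norm_nonneg _)
  constructor <;> intro x hx <;>
    obtain ⟨b, rfl⟩ := (Submodule.mem_span_range_iff_exists_fun ℝ).1 hx <;>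
    exact ⟨_, (Submodule.mem_span_range_iff_exists_fun ℝ).2 ⟨b, rfl⟩, key b⟩

lemma pert0 {G : ℕ → Submodule ℝ X} {C : ℝ} (h : Unc G C) (hC : 0 < C) {y g : ℕ → X}
    (hg : ∀ k, g k ∈ G k) (hy : ∀ k, ‖y k - g k‖ ≤ (4 * C)⁻¹ * (1 / 2) ^ k * ‖g k‖)
    {s t : Finset ℕ} (hs : s ⊆ t) : ‖∑ k ∈ s, y k - ∑ k ∈ s, g k‖ ≤ ‖∑ k ∈ t, g k‖ / 2 := by
  rw [← sum_sub_distrib]
  refine (norm_sum_le _ _).trans ((sum_le_sum (g := fun k => ‖∑ k ∈ t, g k‖ / 4 * (1 / 2) ^ k)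
    fun k hk => (hy k).trans ((mul_le_mul_of_nonneg_left (h.one hg (hs hk))
      (by positivity)).trans_eq (by field_simp))).trans ?_)
  have := summable_geometric_two.sum_le_tsum s fun _ _ => by positivity
  rw [tsum_geometric_two] at this
  rw [← mul_sum]
  nlinarith [norm_nonneg (∑ k ∈ t, g k)]

theorem pert {E G : ℕ → Submodule ℝ X} {C : ℝ} (h : Unc G C) (hC : 0 < C)
    (hc : ∀ k, Close (E k) (G k) ((4 * C)⁻¹ * (1 / 2) ^ k))
    (hd : Dense ((⨆ k, G k : Submodule ℝ X) : Set X)) :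
    Unc E (2 * C + 1) ∧ Dense ((⨆ k, E k : Submodule ℝ X) : Set X) := by
  refine ⟨fun y hy s t hs => ?_, fun x => ?_⟩
  · choose g hg h1 using fun k => (hc k).1 _ (hy k)
    have h2 := pert0 h hC hg h1 hs
    have h3 := pert0 h hC hg h1 (subset_refl t)
    have h4 := h g hg s t hs
    have h5 := norm_sub_norm_le (∑ k ∈ s, y k) (∑ k ∈ s, g k)
    have h6 := norm_sub_norm_le (∑ k ∈ t, g k) (∑ k ∈ t, y k)
    rw [norm_sub_rev] at h6
    nlinarith
  · by_contra hx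
    obtain ⟨z, -, hz⟩ := riesz_lemma_of_lt_one (⨆ k, E k).isClosed_topologicalClosure ⟨x, hx⟩
      (show (3 / 4 : ℝ) < 1 by norm_num)
    obtain ⟨w, hw, h1⟩ := Metric.dense_iff.1 hd z (1 / 10) (by norm_num)
    obtain ⟨g, hg, t, ht⟩ := fin_sum h1
    choose y hy h2 using fun k => (hc k).2 _ (hg k)
    have h3 := pert0 h hC hg h2 (subset_refl t)
    have h4 := hz.2 _ (Submodule.le_topologicalClosure _
      (sum_mem fun k (_ : k ∈ t) => Submodule.mem_iSup_of_mem k (hy k)))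
    rw [ht t subset_rfl, norm_sub_rev] at h3
    rw [mem_ball_iff_norm] at hw
    have h5 := norm_sub_le_norm_sub_add_norm_sub z w (∑ k ∈ t, y k)
    have h6 := norm_sub_norm_le w z
    rw [norm_sub_rev z w] at h5
    linarith [hz.1]

theorem taylor0 (m : ℕ) : ∀ (F : ℕ → ℝ → X) (_ : ∀ k x, HasDerivAt (F k) (F (k + 1) x) x)
    (B l : ℝ) (_ : 0 ≤ l) (_ : ∀ s, 0 ≤ s → s ≤ l → ‖F m s‖ ≤ B),
    ‖F 0 l - ∑ k ∈ range m, (l ^ k / k.factorial) • F k 0‖ ≤ B * (l ^ m / m.factorial) := by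
  induction m with
  | zero => intro F _ B l h0 h; simpa using h l h0 le_rfl
  | succ m ih =>
    intro F hF B l h0 h
    have d : ∀ (k : ℕ) (x : ℝ), HasDerivAt (fun s : ℝ => s ^ (k + 1) / (k + 1).factorial)
        (x ^ k / k.factorial) x := fun k x => by
      refine ((hasDerivAt_pow (k + 1) x).div_const _).congr_deriv ?_
      rw [Nat.factorial_succ]; push_cast; field_simp
    have d2 : ∀ x, HasDerivAt (fun s : ℝ => F 0 s - ∑ k ∈ range (m + 1),
        (s ^ k / k.factorial) • F k 0) (F 1 x - ∑ k ∈ range m,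
        (x ^ k / k.factorial) • F (k + 1) 0) x := fun x => by
      simp only [sum_range_succ', pow_zero]
      exact (hF 0 x).fun_sub ((HasDerivAt.fun_sum fun k _ => (d k x).smul_const _).add_const _)
    exact image_norm_le_of_norm_deriv_right_le_deriv_boundary (a := 0) (b := l)
      (fun x _ => (d2 x).continuousAt.continuousWithinAt) (fun x _ => (d2 x).hasDerivWithinAt)
      (by simp [sum_range_succ']) (fun x => (d m x).const_mul B)
      (fun x hx => ih (fun k => F (k + 1)) (fun k => hF (k + 1)) B x hx.1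
        fun s h1 h2 => h s h1 (h2.trans hx.2.le)) ⟨h0, le_rfl⟩

theorem taylor (m : ℕ) (F : ℕ → ℝ → X) (hF : ∀ k x, HasDerivAt (F k) (F (k + 1) x) x)
    (B l : ℝ) (h : ∀ s, |s| ≤ |l| → ‖F m s‖ ≤ B) :
    ‖F 0 l - ∑ k ∈ range m, (l ^ k / k.factorial) • F k 0‖ ≤ B * (|l| ^ m / m.factorial) := by
  rcases le_total 0 l with h0 | h0
  · rw [abs_of_nonneg h0] at h ⊢
    exact taylor0 m F hF B l h0 fun s h1 h2 => h s (by rwa [abs_of_nonneg h1])
  · rw [abs_of_nonpos h0] at h ⊢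
    have := taylor0 m (fun k s => (-1 : ℝ) ^ k • F k (-s)) (fun k x => by
      refine (((hF k (-x)).scomp x (hasDerivAt_neg x)).const_smul ((-1 : ℝ) ^ k)).congr_deriv ?_
      rw [smul_smul, pow_succ]) B (-l) (by linarith) fun s h1 h2 => by
        simpa [norm_smul] using h (-s) (by rwa [abs_neg, abs_of_nonneg h1])
    convert this using 3
    · simp
    · refine sum_congr rfl fun k _ => ?_
      rw [smul_smul, neg_zero, div_mul_eq_mul_div, ← mul_pow]
      simp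

end Pool.Agent.H.MP_5d9214_an
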