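import Pool.Agent.H.MP_5d9214_an.A
import Pool.Agent.H.MP_ada34c_an.B
import Pool.Agent.H.MP_aa72b5_an.A

namespace Pool.Agent.H.MP_5d9214_an

open Finset Real Filter Topology MeasureTheory Pool.Agent.H.MP_ada34c_an Pool.Agent.H.Haar
open scoped ENNReal

/-- the real Lebesgue space -/
noncomputable abbrev XX (P : ℝ≥0∞) := Lp ℝ P (volume : Measure ℝ)

variable {P : ℝ≥0∞}

/-- shift of a function -/
noncomputable def sh (l : ℝ) (f : M P) : M P :=
  ⟨fun x => f.1 (x - l), MemLp.comp_measurePreserving f.2 (measurePreserving_sub_right volume l)⟩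

lemma T_surj (y : XX P) : ∃ f, T P f = y := ⟨⟨y, Lp.memLp y⟩, Lp.toLp_coeFn y (Lp.memLp y)⟩

lemma T_le {f g : M P} (h : ∀ x, |f.1 x| ≤ |g.1 x|) : ‖T P f‖ ≤ ‖T P g‖ :=
  Lp.norm_le_norm_of_ae_le (by
    filter_upwards [MemLp.coeFn_toLp f.2, MemLp.coeFn_toLp g.2] with x h1 h2
    exact (congrArg norm h1).trans_le ((h x).trans_eq (congrArg norm h2).symm))

/-- classes supported over a set of unit intervals -/
def Sup (P : ℝ≥0∞) (J : Set ℤ) : Submodule ℝ (XX P) where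
  carrier := {y | ∃ f, T P f = y ∧ ∀ x, ⌊x⌋ ∉ J → f.1 x = 0}
  add_mem' := by
    rintro _ _ ⟨f, rfl, h⟩ ⟨g, rfl, h'⟩
    exact ⟨f + g, map_add _ _ _, fun x hx => by simp [h x hx, h' x hx]⟩
  zero_mem' := ⟨0, map_zero _, fun _ _ => rfl⟩
  smul_mem' := by
    rintro c _ ⟨f, rfl, h⟩
    exact ⟨c • f, map_smul _ _ _, fun x hx => by simp [h x hx]⟩

lemma Sup_mono {I J : Set ℤ} (h : I ⊆ J) {y : XX P} : y ∈ Sup P I → y ∈ Sup P J :=
  fun ⟨f, h1, h2⟩ => ⟨f, h1, fun x hx => h2 x fun h3 => hx (h h3)⟩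

/-- dyadic indicator -/
noncomputable def chi (P : ℝ≥0∞) (j : ℤ) (n m : ℕ) : XX P :=
  T P (ind P (j - 1 + m / 2 ^ n) (j - 1 + (m + 1) / 2 ^ n))

lemma chi_split (j : ℤ) (n m : ℕ) :
    chi P j n m = chi P j (n + 1) (2 * m) + chi P j (n + 1) (2 * m + 1) := by
  unfold chi
  have h : (0 : ℝ) < 2 ^ (n + 1) := by positivity
  rw [← map_add, Nat.cast_succ, ind_add (by gcongr; linarith) (by gcongr; linarith)]
  congr 2 <;> push_cast <;> field_simp <;> ring

lemma chi_sup (j : ℤ) {n m : ℕ} (h : m ∈ lev n) : chi P j n m ∈ Sup P {j} := by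
  refine ⟨_, rfl, fun x hx => ?_⟩
  rw [ind_apply, if_neg fun h' => hx ?_]
  rw [lev, mem_Ico] at h
  have p : (0 : ℝ) < 2 ^ n := by positivity
  have h1 : (1 : ℝ) ≤ m / 2 ^ n := by rw [le_div_iff₀ p, one_mul]; exact_mod_cast h.1
  have h2 : ((m : ℝ) + 1) / 2 ^ n ≤ 2 := by
    rw [div_le_iff₀ p, ← pow_succ']; exact_mod_cast h.2
  exact Int.floor_eq_iff.2 ⟨by linarith [h'.1], by linarith [h'.2]⟩

/-- the Haar system -/
noncomputable def hr (P : ℝ≥0∞) (i : ℤ × ℕ) : XX P :=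
  if i.2 = 0 then chi P i.1 0 1 else
    chi P i.1 (Nat.log 2 i.2 + 1) (2 * i.2) - chi P i.1 (Nat.log 2 i.2 + 1) (2 * i.2 + 1)

lemma hr_lev (j : ℤ) {n m : ℕ} (h : m ∈ lev n) :
    hr P (j, m) = chi P j (n + 1) (2 * m) - chi P j (n + 1) (2 * m + 1) := by
  rw [lev, mem_Ico] at h
  have : 0 < 2 ^ n := by positivity
  rw [hr, if_neg (by omega), Nat.log_eq_of_pow_le_of_lt_pow h.1 h.2]

lemma hr_sup (i : ℤ × ℕ) : hr P i ∈ Sup P {i.1} := by
  unfold hr
  split_ifs with h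
  · exact chi_sup _ (by simp [lev])
  · have h1 := Nat.pow_log_le_self 2 h
    have h2 := Nat.lt_pow_succ_log_self (b := 2) (by norm_num) i.2
    refine Submodule.sub_mem _ (chi_sup _ ?_) (chi_sup _ ?_) <;>
      simp only [lev, mem_Ico, pow_succ, Nat.succ_eq_add_one] at h2 ⊢ <;> omega

lemma sum_hr (j : ℤ) (a : ℕ → ℝ) (n : ℕ) :
    ∑ m ∈ range (2 ^ n), a m • hr P (j, m) = ∑ i ∈ lev n, FF a n i • chi P j n i := by
  induction n with
  | zero => simp [hr, lev, FF]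
  | succ n ih =>
    rw [← sum_range_add_sum_Ico _ (Nat.pow_le_pow_right two_pos n.le_succ), ih, sum_lev]
    change _ + ∑ m ∈ lev n, _ = _
    rw [← sum_add_distrib]
    refine sum_congr rfl fun m hm => ?_
    rw [hr_lev j hm, chi_split, FF_even, FF_odd]
    module

/-- synthesis -/
noncomputable def sy (P : ℝ≥0∞) : (ℤ × ℕ →₀ ℝ) →ₗ[ℝ] XX P := Finsupp.linearCombination ℝ (hr P)

lemma sy_sup {a : ℤ × ℕ →₀ ℝ} {J : Set ℤ} (h : ∀ i, a i ≠ 0 → i.1 ∈ J) : sy P a ∈ Sup P J :=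
  sum_mem fun i hi => Submodule.smul_mem _ _
    (Sup_mono (by simpa using h i (by simpa using hi)) (hr_sup i))

lemma chi_mem (j : ℤ) (n : ℕ) : ∀ m ∈ lev n, chi P j n m ∈ LinearMap.range (sy P) := by
  have h0 : ∀ i, hr P i ∈ LinearMap.range (sy P) := fun i => ⟨Finsupp.single i 1, by simp [sy]⟩
  induction n with
  | zero => intro m hm; simpa [hr, show m = 1 by simpa [lev] using hm] using h0 (j, 0)
  | succ n ih =>
    intro m hm
    have h1 : m / 2 ∈ lev n := by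
      simp only [lev, mem_Ico, pow_succ] at hm ⊢
      omega
    have h2 := ih _ h1
    have h3 := h0 (j, m / 2)
    rw [hr_lev j h1] at h3
    rw [chi_split] at h2
    rcases (show m = 2 * (m / 2) ∨ m = 2 * (m / 2) + 1 by omega) with h | h <;> rw [h]
    · convert Submodule.smul_mem _ (1 / 2 : ℝ) (add_mem h2 h3) using 1
      module
    · convert Submodule.smul_mem _ (1 / 2 : ℝ) (sub_mem h2 h3) using 1
      module

lemma tr_all {p : ℝ} (hp : 1 < p) : ∃ C : ℝ, 0 < C ∧ ∀ (a b : ℕ → ℝ),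
    (∀ m, b m = a m ∨ b m = -a m) → ∀ n,
      ∑ m ∈ lev n, |FF b n m| ^ p ≤ C * ∑ m ∈ lev n, |FF a n m| ^ p := by
  rcases eq_or_ne p 2 with rfl | h
  · refine ⟨1, one_pos, fun a b h n => le_of_eq ?_⟩
    simp only [one_mul, rpow_two, sq_abs]
    have h1 : ∀ m, b m ^ 2 = a m ^ 2 := fun m => by rcases h m with e | e <;> simp [e]
    have h2 : ∀ c : ℕ → ℝ, ∀ n, ∑ m ∈ lev (n + 1), FF c (n + 1) m ^ 2 =
        2 * ∑ m ∈ lev n, FF c n m ^ 2 + 2 * ∑ m ∈ lev n, c m ^ 2 := fun c n => by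
      rw [sum_lev, mul_sum, mul_sum, ← sum_add_distrib]
      exact sum_congr rfl fun m _ => by rw [FF_even, FF_odd]; ring
    induction n with
    | zero => simp [FF, h1]
    | succ n ih => rw [h2, h2, ih]; simp only [h1]
  · exact transform hp h

variable [Fact (1 ≤ P)]

/-- translation -/
noncomputable def tau (P : ℝ≥0∞) [Fact (1 ≤ P)] (l : ℝ) : XX P →ₗᵢ[ℝ] XX P :=
  Lp.compMeasurePreservingₗᵢ ℝ (fun x => x - l) (measurePreserving_sub_right volume l)

lemma tau_T (l : ℝ) (f : M P) : tau P l (T P f) = T P (sh l f) := rfl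

lemma tau_tau (a b : ℝ) (y : XX P) : tau P a (tau P b y) = tau P (a + b) y := by
  obtain ⟨f, rfl⟩ := T_surj y
  simp only [tau_T, sh, sub_sub]

lemma tau_zero (y : XX P) : tau P 0 y = y := by
  obtain ⟨f, rfl⟩ := T_surj y
  simp only [tau_T, sh, sub_zero]

lemma tau_sup {y : XX P} {a b : ℤ} (h : y ∈ Sup P (Set.Ico a b)) {l : ℝ} {c d : ℤ}
    (h1 : c ≤ l + a) (h2 : l + b ≤ d) : tau P l y ∈ Sup P (Set.Ico c d) := by
  obtain ⟨f, rfl, h⟩ := h
  refine ⟨_, (tau_T l f).symm, fun x hx => h _ fun h' => hx ?_⟩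
  simp only [Set.mem_Ico, Int.le_floor, Int.floor_lt] at h' ⊢
  constructor <;> linarith [h'.1, h'.2]

variable (hp : 1 < P.toReal)
include hp

lemma add2 {y z : XX P} {I J : Set ℤ} (hy : y ∈ Sup P I) (hz : z ∈ Sup P J) (h : Disjoint I J) :
    ‖y + z‖ ^ P.toReal = ‖y‖ ^ P.toReal + ‖z‖ ^ P.toReal := by
  obtain ⟨f, rfl, hf⟩ := hy
  obtain ⟨g, rfl, hg⟩ := hz
  rw [← map_add, Tn hp, Tn hp, Tn hp, ← integral_add (pint hp f) (pint hp g)]
  congr 1
  funext x
  have : P.toReal ≠ 0 := by linarith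
  by_cases hx : ⌊x⌋ ∈ I
  · simp [hg x (Set.disjoint_left.1 h hx), this]
  · simp [hf x hx, this]

lemma addN {I : Type} (s : Finset I) {y : I → XX P} {J : I → Set ℤ} (hy : ∀ i, y i ∈ Sup P (J i))
    (h : Pairwise fun i j => Disjoint (J i) (J j)) :
    ‖∑ i ∈ s, y i‖ ^ P.toReal = ∑ i ∈ s, ‖y i‖ ^ P.toReal := by
  classical
  induction s using Finset.induction_on with
  | empty => simp [show P.toReal ≠ 0 by linarith]
  | insert i s hi ih =>
    rw [sum_insert hi, sum_insert hi, ← ih]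
    exact add2 hp (J := ⋃ j ∈ s, J j) (hy i) (sum_mem fun j hj => Sup_mono
      (Set.subset_biUnion_of_mem (u := J) hj) (hy j))
      (Set.disjoint_iUnion₂_right.2 fun j hj => h (ne_of_mem_of_not_mem hj hi).symm)

lemma le2 {y z : XX P} {I J : Set ℤ} (hy : y ∈ Sup P I) (hz : z ∈ Sup P J) (h : Disjoint I J) :
    ‖y‖ ≤ ‖y + z‖ := by
  rw [← rpow_le_rpow_iff (norm_nonneg _) (norm_nonneg _) (show 0 < P.toReal by linarith),
    add2 hp hy hz h]
  exact le_add_of_nonneg_right (by positivity)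

lemma lev_norm (j : ℤ) (n : ℕ) (c : ℕ → ℝ) : ‖∑ i ∈ lev n, c i • chi P j n i‖ ^ P.toReal =
    (2 ^ n)⁻¹ * ∑ i ∈ lev n, |c i| ^ P.toReal := by
  have p : (0 : ℝ) < 2 ^ n := by positivity
  have := dsum hp (ι := lev n) (fun i => j - 1 + (i : ℕ) / 2 ^ n)
    (fun i => j - 1 + ((i : ℕ) + 1) / 2 ^ n) (fun i => c i) (fun i => by gcongr; linarith)
    fun i k hik => by
      refine Set.Ico_disjoint_Ico.2 ?_
      rcases lt_or_gt_of_ne (Subtype.coe_ne_coe.2 hik) with h | h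
      · exact (min_le_left _ _).trans (le_max_of_le_right (by gcongr; exact_mod_cast h))
      · exact (min_le_right _ _).trans (le_max_of_le_left (by gcongr; exact_mod_cast h))
  rw [mul_sum, ← sum_coe_sort, ← sum_coe_sort (lev n)]
  simp only [map_sum, map_smul] at this
  exact this.trans (sum_congr rfl fun i _ => by field_simp; ring)

theorem uncond : ∃ C, 0 < C ∧ ∀ (a : ℤ × ℕ →₀ ℝ) (q : ℤ × ℕ → Prop) [DecidablePred q],
    ‖sy P (a.filter q)‖ ≤ C * ‖sy P a‖ := by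
  obtain ⟨C, C0, hC⟩ := tr_all hp
  refine ⟨(1 + C ^ P.toReal⁻¹) / 2, by positivity, fun a q _ => ?_⟩
  obtain ⟨n, hn⟩ : ∃ n, ∀ i ∈ a.support, i.2 < 2 ^ n := ⟨a.support.sup Prod.snd, fun i hi =>
    (le_sup (f := Prod.snd) hi).trans_lt Nat.lt_two_pow_self⟩
  have key : ∀ b : ℤ × ℕ →₀ ℝ, (∀ i, b i = a i ∨ b i = -a i) → ‖sy P b‖ ^ P.toReal =
      ∑ j ∈ a.support.image Prod.fst,
        (2 ^ n)⁻¹ * ∑ i ∈ lev n, |FF (fun m => b (j, m)) n i| ^ P.toReal := fun b hb => by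
    rw [sy, Finsupp.linearCombination_apply, Finsupp.sum_of_support_subset _
      (s := a.support.image Prod.fst ×ˢ range (2 ^ n)) (fun i hi => ?_) _ (by simp), sum_product,
      addN hp (J := fun j => {j}) _ (fun j => sum_mem fun m _ => Submodule.smul_mem _ _
        (hr_sup (j, m))) fun i j h => by simpa]
    · exact sum_congr rfl fun j _ => by rw [sum_hr, lev_norm hp]
    · have : i ∈ a.support := by
        rw [Finsupp.mem_support_iff] at hi ⊢
        rcases hb i with h | h <;> simpa [h] using hi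
      exact mem_product.2 ⟨mem_image_of_mem _ this, mem_range.2 (hn i this)⟩
  set b := a.filter q - a.filter fun i => ¬ q i with hb
  have h1 : ∀ i, b i = a i ∨ b i = -a i := fun i => by
    by_cases h : q i <;> simp [hb, Finsupp.filter_apply, h]
  have h2 : ‖sy P b‖ ≤ C ^ P.toReal⁻¹ * ‖sy P a‖ := root_le hp (norm_nonneg _) C0.le (by
    rw [key b h1, key a fun _ => .inl rfl, mul_sum]
    refine sum_le_sum fun j _ => ?_
    rw [mul_left_comm]
    exact mul_le_mul_of_nonneg_left (hC _ _ (fun m => h1 (j, m)) n) (by positivity))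
  have h3 : a.filter q = (1 / 2 : ℝ) • (a + b) := by
    ext i
    by_cases h : q i <;> simp [hb, Finsupp.filter_apply, h]
    ring
  rw [h3, map_smul, map_add, norm_smul]
  have := norm_add_le (sy P a) (sy P b)
  norm_num
  linarith

theorem sy_dense : DenseRange (sy P) := fun f => by
  refine top_of hp (LinearMap.range (sy P)).topologicalClosure
    (Submodule.isClosed_topologicalClosure _) (fun x r => ?_) f
  have p : (0 : ℝ) < 2 ^ r := by positivity
  refine ⟨⌊x * 2 ^ r⌋ / 2 ^ r, by rw [div_le_iff₀ p]; exact Int.floor_le _, ?_,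
    Submodule.le_topologicalClosure _ ?_⟩
  · rw [sub_le_iff_le_add, one_div, inv_pow, ← one_div, ← add_div, le_div_iff₀ p]
    linarith [Int.lt_floor_add_one (x * 2 ^ r)]
  have h1 : ∀ i : ℤ, T P (ind P (i / 2 ^ r) ((i + 1) / 2 ^ r)) ∈ LinearMap.range (sy P) := fun i => by
    have h2 := Int.emod_nonneg i (show (2 : ℤ) ^ r ≠ 0 by positivity)
    have h3 := Int.emod_lt_of_pos i (show (0 : ℤ) < 2 ^ r by positivity)
    have h4 : (i : ℝ) = 2 ^ r * (i / 2 ^ r : ℤ) + (i % 2 ^ r : ℤ) := by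
      exact_mod_cast (Int.mul_ediv_add_emod i (2 ^ r)).symm
    obtain ⟨m, hm⟩ := Int.eq_ofNat_of_zero_le h2
    rw [hm] at h3 h4
    have h5 : m < 2 ^ r := by exact_mod_cast h3
    convert chi_mem (P := P) (i / 2 ^ r) r (2 ^ r + m) (by simp only [lev, mem_Ico, pow_succ]; omega)
      using 1
    unfold chi
    congr 2 <;> rw [h4] <;> push_cast <;> field_simp <;> ring
  generalize ⌊x * 2 ^ r⌋ = i
  have h2 : ∀ i : ℤ, (i : ℝ) / 2 ^ r ≤ (i + 1) / 2 ^ r := fun i => by gcongr; linarith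
  induction i using Int.induction_on with
  | zero => simp [gm]
  | succ i ih =>
    rw [Int.cast_add, Int.cast_one, ← gm_add (h2 i), map_add]
    exact add_mem ih (h1 i)
  | pred i ih =>
    have := gm_add (P := P) (h2 (-i - 1))
    rw [eq_sub_of_add_eq this, map_sub]
    refine sub_mem ?_ (h1 _)
    convert ih using 4
    push_cast; ring

end Pool.Agent.H.MP_5d9214_an
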