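import Pool.Agent.H.MP_5d9214_an.B

namespace Pool.Agent.H.MP_5d9214_an

open Finset Real Filter Topology MeasureTheory Pool.Agent.H.MP_ada34c_an
open scoped ENNReal Nat

/-- Hermite polynomials -/
def He : ℕ → ℝ → ℝ
  | 0, _ => 1
  | 1, x => x
  | n + 2, x => x * He (n + 1) x - (n + 1) * He n x

lemma He_d : ∀ n x, HasDerivAt (He (n + 1)) ((n + 1) * He n x) x
  | 0, x => by simpa [He] using hasDerivAt_id' x
  | 1, x => by
    refine (((hasDerivAt_id' x).fun_mul (hasDerivAt_id' x)).sub_const (((0 : ℕ) + 1 : ℝ) * 1)).congr_deriv ?_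
    simp only [He]; push_cast; ring
  | n + 2, x => by
    refine (((hasDerivAt_id' x).fun_mul (He_d (n + 1) x)).fun_sub
      ((He_d n x).const_mul ((n + 1 : ℕ) + 1 : ℝ))).congr_deriv ?_
    simp only [He]; push_cast; ring

lemma He_le : ∀ n x, |He n x| ≤ (|x| + n) ^ n
  | 0, x => by simp [He]
  | 1, x => by simp [He]
  | n + 2, x => by
    have h0 := abs_nonneg x
    have h1 : |He (n + 1) x| ≤ (|x| + (n + 2 : ℕ)) ^ (n + 1) :=
      (He_le (n + 1) x).trans (by gcongr; omega)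
    have h2 : |He n x| ≤ (|x| + (n + 2 : ℕ)) ^ (n + 1) := (He_le n x).trans
      ((by gcongr; omega : _ ≤ (|x| + (n + 2 : ℕ)) ^ n).trans (pow_le_pow_right₀
        (by push_cast; linarith [n.cast_nonneg (α := ℝ)]) n.le_succ))
    rw [He, pow_succ']
    refine (abs_sub _ _).trans ?_
    rw [abs_mul, abs_mul, abs_of_nonneg (show (0 : ℝ) ≤ n + 1 by positivity), add_mul |x|]
    exact add_le_add (mul_le_mul_of_nonneg_left h1 h0) (mul_le_mul (by push_cast; linarith) h2
      (abs_nonneg _) (by positivity))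

/-- Hermite functions -/
noncomputable def g (n : ℕ) (x : ℝ) : ℝ := He n x * exp (-(1 / 2) * x ^ 2)

lemma g_d (n : ℕ) (x : ℝ) : HasDerivAt (g n) (-g (n + 1) x) x := by
  have h := (((hasDerivAt_pow 2 x).const_mul (-(1 / 2))).exp)
  rcases n with _ | n
  · refine ((hasDerivAt_const x (1 : ℝ)).fun_mul h).congr_deriv ?_
    simp only [g, He]; norm_num; ring
  · refine ((He_d n x).fun_mul h).congr_deriv ?_
    simp only [g, He]; norm_num; ring

lemma g_cont (n : ℕ) : Continuous (g n) := continuous_iff_continuousAt.2 fun x => (g_d n x).continuousAt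

lemma pow_exp {u : ℝ} (h : 0 ≤ u) (n : ℕ) : u ^ n ≤ n ! * exp u := by
  have := pow_div_factorial_le_exp u h n
  rwa [div_le_iff₀' (by positivity)] at this

lemma g_le (n : ℕ) (x : ℝ) : |g n x| ≤ n ! * exp (n + 2) * exp (-|x|) := by
  rw [g, abs_mul, abs_of_pos (exp_pos _), mul_assoc, ← exp_add]
  refine (mul_le_mul_of_nonneg_right ((He_le n x).trans (pow_exp (by positivity) n))
    (exp_pos _).le).trans ?_
  rw [mul_assoc, ← exp_add]
  refine mul_le_mul_of_nonneg_left (exp_le_exp.2 ?_) (by positivity)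
  nlinarith [sq_nonneg (|x| - 2), sq_abs x]

lemma pe_le {a : ℝ} (ha : 1 / 8 ≤ a) (m : ℕ) (x : ℝ) :
    |x ^ m * exp (-a * x ^ 2)| ≤ m ! * exp 8 * exp (-|x|) := by
  rw [abs_mul, abs_of_pos (exp_pos _), mul_assoc, ← exp_add, abs_pow]
  refine (mul_le_mul_of_nonneg_right (pow_exp (abs_nonneg x) m) (exp_pos _).le).trans ?_
  rw [mul_assoc, ← exp_add]
  refine mul_le_mul_of_nonneg_left (exp_le_exp.2 ?_) (by positivity)
  nlinarith [sq_nonneg (|x| - 8), sq_abs x, sq_nonneg x]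

lemma zero_at {f : ℝ → ℝ} {C : ℝ} (h : ∀ x, |f x| ≤ C * exp (-|x|)) :
    Tendsto f (cocompact ℝ) (𝓝 0) :=
  squeeze_zero_norm h (by simpa using (tendsto_exp_neg_atTop_nhds_zero.comp
    (tendsto_norm_cocompact_atTop (E := ℝ))).const_mul C)

variable {P : ℝ≥0∞} [Fact (1 ≤ P)] (hp : 1 < P.toReal)
include hp

omit [Fact (1 ≤ P)] in
lemma env_mem : MemLp (fun x : ℝ => exp (-|x|)) P volume := by
  refine (integrable_norm_rpow_iff (by fun_prop) (P_ne hp).1 (P_ne hp).2).1
    ((integrable_inv_one_add_sq.const_mul 2).mono' (by fun_prop (disch := positivity))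
      (Eventually.of_forall fun x => ?_))
  have h0 := abs_nonneg x
  rw [norm_of_nonneg (by positivity), norm_of_nonneg (exp_pos _).le]
  refine (rpow_le_self_of_le_one (exp_pos _).le (by simp) hp.le).trans ?_
  rw [exp_neg, ← div_eq_mul_inv, ← one_div, div_le_div_iff₀ (exp_pos _) (by positivity)]
  have := quadratic_le_exp_of_nonneg h0
  nlinarith [sq_abs x]

omit [Fact (1 ≤ P)] in
lemma mem_of {f : ℝ → ℝ} (hf : Continuous f) {C : ℝ} (h : ∀ x, |f x| ≤ C * exp (-|x|)) :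
    f ∈ M P :=
  ((env_mem hp).const_mul C).mono' hf.aestronglyMeasurable (Eventually.of_forall h)

/-- norm of the envelope -/
noncomputable def ev : ℝ := ‖T P ⟨_, env_mem hp⟩‖

lemma ev_nonneg : 0 ≤ ev hp := norm_nonneg _

lemma T_env {f : M P} {C : ℝ} (h : ∀ x, |f.1 x| ≤ C * exp (-|x|)) : ‖T P f‖ ≤ C * ev hp := by
  have h0 : 0 ≤ C := by simpa using (abs_nonneg _).trans (h 0)
  refine (T_le (g := C • ⟨_, env_mem hp⟩) fun x => (h x).trans (le_abs_self _)).trans ?_
  rw [map_smul, norm_smul, norm_of_nonneg h0, ev]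

/-- Hermite functions in the space -/
noncomputable def G (n : ℕ) : XX P := T P ⟨g n, mem_of hp (g_cont n) (g_le n)⟩

lemma G_d (n : ℕ) (l : ℝ) : HasDerivAt (fun s => tau P s (G hp n)) (tau P l (G hp (n + 1))) l := by
  have h0 : HasDerivAt (fun s => tau P s (G hp n)) (G hp (n + 1)) 0 := by
    refine hasDerivAt_iff_isLittleO.2 ((Asymptotics.IsBigO.of_bound
      ((n + 2)! * exp ((n + 2 : ℕ) + 2) * exp 1 * ev hp) ?_).trans_isLittleO
      (Asymptotics.isLittleO_pow_sub_sub (0 : ℝ) one_lt_two))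
    filter_upwards [Metric.ball_mem_nhds (0 : ℝ) one_pos] with s hs
    rw [mem_ball_zero_iff, norm_eq_abs] at hs
    rw [tau_zero, G, G, tau_T, ← map_sub, ← map_smul, ← map_sub, mul_right_comm]
    refine T_env hp fun x => ?_
    have := taylor 2 (fun k s => g (n + k) (x - s)) (fun k s =>
      ((g_d (n + k) (x - s)).comp s ((hasDerivAt_id' s).const_sub x)).congr_deriv (by simp; rfl))
      ((n + 2)! * exp ((n + 2 : ℕ) + 2) * exp (1 - |x|)) s fun r hr => (g_le _ _).trans (by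
        gcongr
        linarith [abs_sub_abs_le_abs_sub x (x - r), show |x - (x - r)| = |r| by simp])
    simp only [sum_range_succ, sub_zero, norm_eq_abs, abs_pow, abs_abs] at this ⊢
    refine le_of_eq_of_le ?_ ((this.trans (mul_le_mul_of_nonneg_left (div_le_self (by positivity)
      (by norm_num)) (by positivity))).trans_eq ?_)
    · simp [sh, sub_sub]
    · rw [sub_eq_add_neg, exp_add _ (-|x|)]; ring
  have h1 := ((tau P l).toContinuousLinearMap.hasFDerivAt.comp_hasDerivAt _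
    (HasDerivAt.comp_sub_const l l (by simpa using h0)))
  refine h1.congr_of_eventuallyEq (Eventually.of_forall fun s => ?_)
  simp [tau_tau]

lemma G_le (b : ℕ) : ∃ C, ∀ m, ‖G hp (b + m)‖ ≤ C * (6 ^ m * m !) := by
  refine ⟨b ! * 2 ^ b * exp (b + 2) * ev hp, fun m => (T_env hp (g_le _)).trans ?_⟩
  have h1 : ((b + m)! : ℝ) ≤ 2 ^ (b + m) * b ! * m ! := by
    rw [← Nat.add_choose_mul_factorial_mul_factorial]
    push_cast
    gcongr
    exact_mod_cast Nat.choose_le_two_pow _ _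
  have h2 : exp ((b + m : ℕ) + 2) ≤ exp (b + 2) * 3 ^ m := by
    rw [show ((b + m : ℕ) + 2 : ℝ) = b + 2 + m * 1 by push_cast; ring, exp_add, exp_nat_mul]
    gcongr
    exact exp_one_lt_three.le
  have := ev_nonneg hp
  refine (mul_le_mul_of_nonneg_right (mul_le_mul h1 h2 (by positivity) (by positivity))
    this).trans_eq ?_
  rw [show (6 : ℝ) = 2 * 3 by norm_num, mul_pow, pow_add]
  ring

lemma approx (y : XX P) {ε : ℝ} (hε : 0 < ε) : ∃ f : M P, Continuous f.1 ∧ HasCompactSupport f.1 ∧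
    ‖y - T P f‖ ≤ ε := by
  obtain ⟨f, rfl⟩ := T_surj y
  obtain ⟨u, h1, h2, h3, h4⟩ := MemLp.exists_hasCompactSupport_eLpNorm_sub_le (P_ne hp).2 f.2
    (ENNReal.ofReal_pos.2 hε).ne'
  refine ⟨⟨u, h4⟩, h3, h1, ?_⟩
  have h5 : T P f - T P ⟨u, h4⟩ = MemLp.toLp (f.1 - u) (MemLp.sub f.2 h4) :=
    (MemLp.toLp_sub f.2 h4).symm
  rw [h5, Lp.norm_toLp]
  exact ENNReal.toReal_le_of_le_ofReal hε.le h2

lemma approx' (y : XX P) {ε : ℝ} (hε : 0 < ε) :
    ∃ (B : ℕ) (z : XX P), z ∈ Sup P (Set.Ico (-B) B) ∧ ‖y - z‖ ≤ ε := by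
  obtain ⟨f, -, h1, h2⟩ := approx hp y hε
  obtain ⟨R, -, h3⟩ := h1.exists_pos_le_norm
  refine ⟨⌈R⌉₊, _, ⟨f, rfl, fun x hx => h3 x ((Nat.le_ceil R).trans ?_)⟩, h2⟩
  by_contra h
  rw [not_le, norm_eq_abs, abs_lt] at h
  exact hx ⟨Int.le_floor.2 (by simpa using h.1.le), Int.floor_lt.2 (by simpa using h.2)⟩

/-- functions in the closed span of the Hermite functions -/
noncomputable def Z : Submodule ℝ (ℝ → ℝ) :=
  ((Submodule.span ℝ (Set.range (G hp))).topologicalClosure.comap (T P)).map (M P).subtype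

lemma Z_lim {f : ℝ → ℝ} (hf : f ∈ M P) (h : ∀ ε > 0, ∃ u ∈ Z hp, ∀ x, |f x - u x| ≤ ε * exp (-|x|)) :
    f ∈ Z hp := by
  refine ⟨⟨f, hf⟩, (Submodule.isClosed_topologicalClosure _).closure_subset_iff.2 subset_rfl
    (Metric.mem_closure_iff.2 fun ε hε => ?_), rfl⟩
  have := ev_nonneg hp
  obtain ⟨_, ⟨u, hu, rfl⟩, h1⟩ := h (ε / (ev hp + 1)) (by positivity)
  refine ⟨_, hu, ?_⟩
  rw [dist_eq_norm, ← map_sub]
  refine (T_env hp h1).trans_lt ?_
  rw [div_mul_eq_mul_div, div_lt_iff₀ (by positivity)]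
  linarith

lemma Z_pow (m : ℕ) : ∀ k, (fun x => x ^ m * g k x) ∈ Z hp := by
  induction m with
  | zero => exact fun k => ⟨⟨g k, mem_of hp (g_cont k) (g_le k)⟩, Submodule.le_topologicalClosure _
      (Submodule.subset_span ⟨k, rfl⟩), by simp⟩
  | succ m ih =>
    rintro (_ | k)
    · convert ih 1 using 2
      simp only [g, He]; ring
    · convert add_mem (ih (k + 2)) (Submodule.smul_mem _ (k + 1 : ℝ) (ih k)) using 1
      funext x
      simp only [g, He, Pi.add_apply, Pi.smul_apply, smul_eq_mul]; ring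

lemma Z_gauss (j : ℕ) : ∀ m, (fun x => x ^ m * exp (-(1 / 2 + j / 4) * x ^ 2)) ∈ Z hp := by
  induction j with
  | zero => intro m; simpa [g, He] using Z_pow hp m 0
  | succ j ih =>
    intro m
    have hj := j.cast_nonneg (α := ℝ)
    refine Z_lim hp (mem_of hp (by fun_prop) (pe_le (by push_cast; linarith) m)) fun ε hε => ?_
    obtain ⟨N, hN⟩ := exists_pow_lt_of_lt_one (div_pos hε (show 0 < m ! * exp 8 by positivity))
      (show (2 / 3 : ℝ) < 1 by norm_num)
    refine ⟨_, sum_mem fun k (_ : k ∈ range N) => Submodule.smul_mem _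
      ((-1 / 4 : ℝ) ^ k / k !) (ih (m + 2 * k)), fun x => ?_⟩
    have h1 := taylor0 N (fun k s => (-1 : ℝ) ^ k * exp (-s)) (fun k s => by
      refine ((hasDerivAt_neg s).exp.const_mul _).congr_deriv ?_
      ring) 1 (x ^ 2 / 4) (by positivity) fun s h _ => by simpa using h
    have h2 : (x ^ 2 / 4) ^ N / N ! ≤ (2 / 3) ^ N * exp (3 / 8 * x ^ 2) := by
      refine le_of_eq_of_le ?_ (mul_le_mul_of_nonneg_left
        (pow_div_factorial_le_exp _ (by positivity) N) (by positivity))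
      rw [← mul_div_assoc, ← mul_pow]; congr 2; ring
    have h3 := pe_le le_rfl m x
    rw [one_mul] at h1
    rw [lt_div_iff₀ (by positivity)] at hN
    have h4 : exp (-(1 / 2 + j / 4) * x ^ 2) * exp (3 / 8 * x ^ 2) ≤ exp (-(1 / 8) * x ^ 2) := by
      rw [← exp_add]; gcongr; nlinarith [sq_nonneg x]
    calc _ = |x ^ m| * exp (-(1 / 2 + j / 4) * x ^ 2) * ‖_‖ := ?_
      _ ≤ |x ^ m| * exp (-(1 / 2 + j / 4) * x ^ 2) * ((2 / 3) ^ N * exp (3 / 8 * x ^ 2)) :=
        mul_le_mul_of_nonneg_left (h1.trans h2) (by positivity)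
      _ = (2 / 3) ^ N * (|x ^ m| * (exp (-(1 / 2 + j / 4) * x ^ 2) * exp (3 / 8 * x ^ 2))) := by ring
      _ ≤ (2 / 3) ^ N * (m ! * exp 8 * exp (-|x|)) := by
        rw [abs_mul, abs_of_pos (exp_pos _)] at h3
        exact mul_le_mul_of_nonneg_left ((mul_le_mul_of_nonneg_left h4 (abs_nonneg _)).trans h3)
          (by positivity)
      _ ≤ _ := by rw [← mul_assoc]; gcongr
    rw [norm_eq_abs, ← abs_of_pos (exp_pos (-(1 / 2 + j / 4) * x ^ 2)), ← abs_mul, ← abs_mul,
      mul_sub, mul_sum, Finset.sum_apply]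
    congr 2
    · rw [pow_zero, one_mul, mul_assoc, ← exp_add]; push_cast; congr 2; ring
    · refine sum_congr rfl fun k _ => ?_
      simp only [Pi.smul_apply, smul_eq_mul, neg_zero, exp_zero, div_pow, pow_add, pow_mul]
      ring

/-- extension by zero at infinity -/
def mk0 (u : ℝ → ℝ) (h1 : Continuous u) (h2 : Tendsto u (cocompact ℝ) (𝓝 0)) : C(OnePoint ℝ, ℝ) :=
  OnePoint.continuousMapMk ⟨u, h1⟩ 0 (by rwa [coclosedCompact_eq_cocompact])

/-- generators -/
noncomputable def w (m : ℕ) : C(OnePoint ℝ, ℝ) := mk0 (fun x => x ^ m * exp (-1 * x ^ 2))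
  (by fun_prop) (zero_at (pe_le (by norm_num) m))

/-- Gaussians times monomials -/
noncomputable def v (q : ℕ × ℕ) (x : ℝ) : ℝ := x ^ q.1 * exp (-(1 / 2 + q.2 / 4) * x ^ 2)

/-- restriction -/
def rs (A : C(OnePoint ℝ, ℝ)) (x : ℝ) : ℝ := A x

omit [Fact (1 ≤ P)] hp in
lemma alg : ∀ A ∈ Algebra.adjoin ℝ (Set.range w), ∀ u ∈ Submodule.span ℝ (Set.range v),
    rs A * u ∈ Submodule.span ℝ (Set.range v) := fun A hA => by
  induction hA using Algebra.adjoin_induction with
  | mem A hA =>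
    obtain ⟨m, rfl⟩ := hA
    intro u hu
    induction hu using Submodule.span_induction with
    | mem u hu =>
      obtain ⟨q, rfl⟩ := hu
      refine Submodule.subset_span ⟨(m + q.1, q.2 + 4), funext fun x => ?_⟩
      change _ = x ^ m * exp (-1 * x ^ 2) * v q x
      rw [v, v, mul_mul_mul_comm, ← exp_add, ← pow_add]
      push_cast; congr 2; ring
    | zero => rw [mul_zero]; exact zero_mem _
    | add u v _ _ h1 h2 => rw [mul_add]; exact add_mem h1 h2
    | smul c u _ h => rw [mul_smul_comm]; exact Submodule.smul_mem _ c h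
  | algebraMap c => exact fun u hu => Submodule.smul_mem _ c hu
  | add A B _ _ h1 h2 =>
    exact fun u hu => (add_mul (rs A) (rs B) u).symm ▸ add_mem (h1 u hu) (h2 u hu)
  | mul A B _ _ h1 h2 => exact fun u hu => (mul_assoc (rs A) (rs B) u).symm ▸ h1 _ (h2 u hu)

omit [Fact (1 ≤ P)] hp in
lemma sep : (Algebra.adjoin ℝ (Set.range w)).SeparatesPoints := fun x y hxy => by
  by_contra h
  have h3 : ∀ m, w m x = w m y := fun m => by
    by_contra h3
    exact h ⟨_, ⟨w m, Algebra.subset_adjoin ⟨m, rfl⟩, rfl⟩, h3⟩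
  have h4 := h3 0
  have h5 := h3 1
  have h6 : ∀ m (x : ℝ), w m x = x ^ m * exp (-1 * x ^ 2) := fun _ _ => rfl
  have h7 : ∀ m, w m OnePoint.infty = 0 := fun _ => rfl
  induction x using OnePoint.rec <;> induction y using OnePoint.rec <;>
    simp only [h6, h7, pow_zero, pow_one, one_mul] at h4 h5
  · exact hxy rfl
  · exact (exp_pos _).ne h4
  · exact (exp_pos _).ne' h4
  · rw [h4] at h5
    exact hxy (congrArg _ (mul_right_cancel₀ (exp_pos _).ne' h5))

lemma Z_cc (f : ℝ → ℝ) (h : f ∈ M P) (hf : Continuous f) (hc : HasCompactSupport f) :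
    f ∈ Z hp := by
  refine Z_lim hp h fun ε hε => ?_
  have h1 : Continuous fun x => f x * exp (1 / 2 * x ^ 2) := by fun_prop
  have h2 : HasCompactSupport fun x => f x * exp (1 / 2 * x ^ 2) := hc.mul_right
  obtain ⟨A, hA⟩ := ContinuousMap.exists_mem_subalgebra_near_continuous_of_separatesPoints _ sep
    (mk0 _ h1 h2.is_zero_at_infty) (ContinuousMap.continuous _) (ε / exp 8) (by positivity)
  have h6 : Submodule.span ℝ (Set.range v) ≤ Z hp :=
    Submodule.span_le.2 (Set.range_subset_iff.2 fun q => Z_gauss hp q.2 q.1)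
  refine ⟨_, h6 (alg A A.2 _ (Submodule.subset_span ⟨(0, 0), rfl⟩)), fun x => ?_⟩
  have h3 : |rs A x - f x * exp (1 / 2 * x ^ 2)| < ε / exp 8 := hA x
  have h4 := pe_le (a := 1 / 2) (by norm_num) 0 x
  have h5 : exp (1 / 2 * x ^ 2) * exp (-(1 / 2) * x ^ 2) = 1 := by rw [← exp_add]; simp
  calc _ = |rs A x - f x * exp (1 / 2 * x ^ 2)| * |x ^ 0 * exp (-(1 / 2) * x ^ 2)| := ?_
    _ ≤ ε / exp 8 * (0! * exp 8 * exp (-|x|)) := by gcongr
    _ = _ := by simp; field_simp
  rw [← abs_mul, abs_sub_comm, sub_mul, pow_zero, one_mul, mul_assoc, h5]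
  simp [v]

theorem G_dense : Dense (Submodule.span ℝ (Set.range (G hp)) : Set (XX P)) := fun y => by
  refine closure_closure.subset (Metric.mem_closure_iff.2 fun ε hε => ?_)
  obtain ⟨f, h2, h3, h4⟩ := approx hp y (half_pos hε)
  obtain ⟨u, hu, h5⟩ := Z_cc hp f.1 f.2 h2 h3
  obtain rfl : u = f := Subtype.ext h5
  exact ⟨T P u, hu, by rw [dist_eq_norm]; linarith⟩

end Pool.Agent.H.MP_5d9214_an
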