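import Pool.Agent.H.MP_5d9214_an.C

namespace Pool.Agent.H.MP_5d9214_an

open Finset Real Filter Topology MeasureTheory Pool.Agent.H.MP_ada34c_an
open scoped ENNReal Nat

theorem ode {U : ℕ → ℝ → ℝ} (hd : ∀ a l, HasDerivAt (U a) (U (a + 1) l) l)
    (h0 : ∀ a, Tendsto (U a) (cocompact ℝ) (𝓝 0)) {q : ℕ →₀ ℝ} (hq : q ≠ 0)
    (h : ∀ l, ∑ a ∈ q.support, q a * U a l = 0) (a : ℕ) : U a = 0 := by
  let u : Polynomial ℂ →ₗ[ℂ] ℝ → ℂ := (Polynomial.basisMonomials ℂ).constr ℂ fun a l => (U a l : ℂ)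
  have u1 : ∀ a c, u (Polynomial.monomial a c) = fun l => c * (U a l : ℂ) := fun a c => by
    rw [← mul_one c, ← smul_eq_mul, ← Polynomial.smul_monomial, map_smul]
    have := (Polynomial.basisMonomials ℂ).constr_basis ℂ (fun a l => (U a l : ℂ)) a
    rw [Polynomial.coe_basisMonomials] at this
    simp only [u, this]
    funext l; simp
  have u2 : ∀ r l, HasDerivAt (u r) (u (Polynomial.X * r) l) l := fun r l => by
    induction r using Polynomial.induction_on' with
    | add r s h1 h2 => rw [mul_add, map_add, map_add]; exact h1.add h2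
    | monomial a c =>
      rw [Polynomial.X_mul_monomial, u1, u1]
      exact (hd a l).ofReal_comp.const_mul c
  have u3 : ∀ r, Tendsto (u r) (cocompact ℝ) (𝓝 0) := fun r => by
    induction r using Polynomial.induction_on' with
    | add r s h1 h2 => rw [map_add, ← add_zero 0]; exact h1.add h2
    | monomial a c =>
      rw [u1]
      simpa using ((Complex.continuous_ofReal.tendsto 0).comp (h0 a)).const_mul c
  have u4 : ∀ n r, r ≠ 0 → r.natDegree = n → u r = 0 → U 0 = 0 := fun n => by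
    induction n with
    | zero =>
      intro r h1 h2 h3
      rw [Polynomial.eq_C_of_natDegree_eq_zero h2, ← Polynomial.monomial_zero_left, u1] at h3
      funext l
      have := congrFun h3 l
      rw [Polynomial.eq_C_of_natDegree_eq_zero h2, Ne, Polynomial.C_eq_zero] at h1
      simpa [h1] using this
    | succ n ih =>
      intro r h1 h2 h3
      obtain ⟨z, hz⟩ := Complex.exists_root (f := r) (Polynomial.natDegree_pos_iff_degree_pos.1 (by omega))
      obtain ⟨s, rfl⟩ := Polynomial.dvd_iff_isRoot.2 hz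
      have h4 : s ≠ 0 := right_ne_zero_of_mul h1
      rw [Polynomial.natDegree_mul (Polynomial.X_sub_C_ne_zero z) h4,
        Polynomial.natDegree_X_sub_C] at h2
      refine ih s h4 (by omega) ?_
      rw [sub_mul, map_sub, sub_eq_zero, ← Polynomial.smul_eq_C_mul, map_smul] at h3
      have h5 : ∀ l, HasDerivAt (fun l => u s l * Complex.exp (-z * l)) 0 l := fun l => by
        refine ((u2 s l).fun_mul (((hasDerivAt_id' l).ofReal_comp.const_mul (-z)).cexp)).congr_deriv ?_
        rw [h3]; simp; ring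
      have h6 : ∀ l, u s l * Complex.exp (-z * l) = u s 0 := fun l => by
        simpa using is_const_of_deriv_eq_zero (fun l => (h5 l).differentiableAt)
          (fun l => (h5 l).deriv) l 0
      have h7 : ∀ l, u s l * u s (-l) = u s 0 ^ 2 := fun l => by
        rw [sq]
        nth_rw 1 [← h6 l]
        rw [← h6 (-l), mul_mul_mul_comm, ← Complex.exp_add]
        simp
      have h8 := ((u3 s).mono_left (atTop_le_cocompact)).mul
        (((u3 s).mono_left (atBot_le_cocompact)).comp tendsto_neg_atTop_atBot)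
      simp only [Function.comp, h7, mul_zero, tendsto_const_nhds_iff, pow_eq_zero_iff two_ne_zero] at h8
      funext l
      simpa [h8] using h6 l
  have u5 := u4 _ (∑ a ∈ q.support, Polynomial.monomial a (q a : ℂ)) (fun h1 => hq (Finsupp.ext
    fun a => by
      have := congrArg (Polynomial.coeff · a) h1
      simp only [Polynomial.finset_sum_coeff, Polynomial.coeff_monomial, sum_ite_eq',
        Polynomial.coeff_zero] at this
      by_contra h2
      rw [if_pos (Finsupp.mem_support_iff.2 h2)] at this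
      exact h2 (by exact_mod_cast this))) rfl (by
    funext l
    simp only [map_sum, u1, Finset.sum_apply, Pi.zero_apply]
    exact_mod_cast h l)
  induction a with
  | zero => exact u5
  | succ a ih => exact funext fun l => (hd a l).unique (by rw [ih]; exact hasDerivAt_const l (0 : ℝ))

variable {P : ℝ≥0∞} [Fact (1 ≤ P)]

lemma inv0 {ψ : ℕ → XX P}
    (hd : ∀ k l, HasDerivAt (fun s => tau P s (ψ k)) (tau P l (ψ (k + 1))) l)
    (hg : ∀ b, ∃ C, ∀ m, ‖ψ (b + m)‖ ≤ C * (6 ^ m * m !)) {Y : Submodule ℝ (XX P)}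
    (hY : IsClosed (Y : Set (XX P))) (h : ∀ k, ψ k ∈ Y) {l : ℝ} (hl : |l| ≤ 1 / 10) (k : ℕ) :
    tau P l (ψ k) ∈ Y := by
  obtain ⟨C, hC⟩ := hg k
  have C0 : 0 ≤ C := by simpa using (norm_nonneg _).trans (hC 0)
  refine hY.mem_of_tendsto (b := atTop)
    (f := fun m => ∑ i ∈ range m, (l ^ i / i !) • ψ (k + i))
    (tendsto_iff_norm_sub_tendsto_zero.2 (squeeze_zero (fun _ => norm_nonneg _) (fun m => ?_)
      (g := fun m : ℕ => C * (6 / 10) ^ m) (by simpa using (tendsto_pow_atTop_nhds_zero_of_lt_one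
        (r := (6 / 10 : ℝ)) (by norm_num) (by norm_num)).const_mul C)))
    (Eventually.of_forall fun m => sum_mem fun i _ => Y.smul_mem _ (h _))
  have := taylor m (fun i s => tau P s (ψ (k + i))) (fun i => hd (k + i)) _ l fun s _ =>
    ((tau P s).norm_map _).trans_le (hC m)
  simp only [tau_zero, add_zero] at this
  rw [norm_sub_rev]
  refine this.trans ?_
  rw [mul_assoc, show (6 / 10 : ℝ) = 6 * (1 / 10) by norm_num, mul_pow]
  refine mul_le_mul_of_nonneg_left (le_of_eq_of_le (b := 6 ^ m * |l| ^ m) (by field_simp) ?_) C0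
  gcongr

lemma inv {ψ : ℕ → XX P}
    (hd : ∀ k l, HasDerivAt (fun s => tau P s (ψ k)) (tau P l (ψ (k + 1))) l)
    (hg : ∀ b, ∃ C, ∀ m, ‖ψ (b + m)‖ ≤ C * (6 ^ m * m !)) {Y : Submodule ℝ (XX P)}
    (hY : IsClosed (Y : Set (XX P))) (h : ∀ k, ψ k ∈ Y) (l : ℝ) : tau P l (ψ 0) ∈ Y := by
  have h1 : ∀ l, |l| ≤ 1 / 10 → ∀ n : ℕ, ∀ k, tau P (n * l) (ψ k) ∈ Y := fun l hl n => by
    induction n with
    | zero => simpa [tau_zero] using h
    | succ n ih =>
      intro k
      have := inv0 (ψ := fun k => tau P (n * l) (ψ k)) (fun k x => by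
        simp only [tau_tau]; exact (hd k (x + n * l)).comp_add_const x (n * l))
        (by simpa using hg) hY ih hl k
      rwa [tau_tau, show l + n * l = (n + 1 : ℕ) * l by push_cast; ring] at this
  obtain ⟨n, hn⟩ := exists_nat_gt (10 * |l|)
  have h2 : (0 : ℝ) < n := lt_of_le_of_lt (by positivity) hn
  have := h1 (l / n) (by rw [abs_div, abs_of_pos h2, div_le_iff₀ h2]; linarith) n 0
  rwa [mul_div_cancel₀ _ h2.ne'] at this

/-- vectors approximable by tight clusters of boundedly many translates -/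
def AP (ψ : XX P) : Submodule ℝ (XX P) where
  carrier := {y | ∃ (N : Type) (_ : Fintype N), ∀ e > 0, ∀ η > 0, ∃ μ c : N → ℝ,
    (∀ j, |μ j| ≤ η) ∧ ‖∑ j, c j • tau P (μ j) ψ - y‖ ≤ e}
  add_mem' := by
    rintro y z ⟨N, _, h⟩ ⟨N', _, h'⟩
    refine ⟨N ⊕ N', inferInstance, fun e he η hη => ?_⟩
    obtain ⟨μ, c, h1, h2⟩ := h (e / 2) (half_pos he) η hη
    obtain ⟨μ', c', h3, h4⟩ := h' (e / 2) (half_pos he) η hη
    refine ⟨Sum.elim μ μ', Sum.elim c c', by rintro (j | j) <;> simp [h1, h3], ?_⟩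
    rw [Fintype.sum_sum_type, add_sub_add_comm]
    exact (norm_add_le _ _).trans ((add_le_add h2 h4).trans_eq (add_halves e))
  zero_mem' := ⟨Empty, inferInstance, fun e he _ _ => ⟨0, 0, by simp, by simpa using he.le⟩⟩
  smul_mem' := by
    rintro a y ⟨N, _, h⟩
    refine ⟨N, inferInstance, fun e he η hη => ?_⟩
    obtain ⟨μ, c, h1, h2⟩ := h (e / (‖a‖ + 1)) (by positivity) η hη
    refine ⟨μ, a • c, h1, ?_⟩
    simp only [Pi.smul_apply, smul_assoc]
    rw [← smul_sum, ← smul_sub, norm_smul]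
    rw [le_div_iff₀ (by positivity)] at h2
    nlinarith [norm_nonneg (∑ j, c j • tau P (μ j) ψ - y)]

lemma AP_tau {ψ y : XX P} {N : Type} [Fintype N] (μ c : N → ℝ) (s : ℝ) :
    ‖∑ j, c j • tau P (s + μ j) ψ - tau P s y‖ = ‖∑ j, c j • tau P (μ j) ψ - y‖ := by
  rw [← (tau P s).norm_map (_ - y)]
  simp [tau_tau]

lemma AP_d {ψ y z : XX P} (h : y ∈ AP ψ) (hd : HasDerivAt (fun s => tau P s y) z 0) :
    z ∈ AP ψ := by
  obtain ⟨N, _, h⟩ := h
  refine ⟨N ⊕ N, inferInstance, fun e he η hη => ?_⟩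
  obtain ⟨s, ⟨h1, h2⟩, h3⟩ := (((Metric.tendsto_nhds.1 (hasDerivAt_iff_tendsto_slope_zero.1 hd)
    (e / 2) (half_pos he)).and (mem_nhdsWithin_of_mem_nhds
      (Metric.ball_mem_nhds (0 : ℝ) (half_pos hη)))).and self_mem_nhdsWithin).exists
  rw [dist_zero_right, norm_eq_abs] at h2
  rw [dist_eq_norm, zero_add, tau_zero] at h1
  have h4 : 0 < |s| := abs_pos.2 h3
  obtain ⟨μ, c, h5, h6⟩ := h (e / 4 * |s|) (by positivity) (η / 2) (half_pos hη)
  refine ⟨Sum.elim (fun j => s + μ j) μ, Sum.elim (s⁻¹ • c) (-s⁻¹ • c), ?_, ?_⟩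
  · rintro (j | j)
    · exact (abs_add_le _ _).trans (by linarith [h5 j])
    · exact (h5 j).trans (by linarith)
  · have h7 := (AP_tau (y := y) μ c s).trans_le h6
    simp only [Fintype.sum_sum_type, Sum.elim_inl, Sum.elim_inr, Pi.smul_apply, smul_assoc,
      ← smul_sum]
    set a := ∑ j, c j • tau P (s + μ j) ψ
    set b := ∑ j, c j • tau P (μ j) ψ
    rw [show s⁻¹ • a + -s⁻¹ • b - z = s⁻¹ • ((a - tau P s y) - (b - y)) +
      (s⁻¹ • (tau P s y - y) - z) by module]
    refine (norm_add_le _ _).trans ?_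
    have := norm_sub_le (a - tau P s y) (b - y)
    rw [norm_smul, norm_inv, norm_eq_abs, inv_mul_eq_div]
    linarith [(div_le_iff₀ h4).2 (show ‖(a - tau P s y) - (b - y)‖ ≤ e / 2 * |s| by linarith)]

variable (hp : 1 < P.toReal)
include hp

lemma c0 (f : XX P →L[ℝ] ℝ) (y : XX P) :
    Tendsto (fun l => f (tau P l y)) (cocompact ℝ) (𝓝 0) := by
  refine Metric.tendsto_nhds.2 fun ε hε => ?_
  obtain ⟨B, z, hz, h1⟩ := approx' hp y (show 0 < ε / 2 / (‖f‖ + 1) by positivity)
  suffices h : ∀ᶠ l in cocompact ℝ, |f (tau P l z)| < ε / 2 by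
    filter_upwards [h] with l hl
    have h2 := f.le_opNorm (tau P l (y - z))
    rw [(tau P l).norm_map, map_sub, map_sub] at h2
    rw [le_div_iff₀ (by positivity)] at h1
    rw [dist_zero_right]
    have := norm_add_le (f (tau P l y) - f (tau P l z)) (f (tau P l z))
    rw [sub_add_cancel, norm_eq_abs (f (tau P l z))] at this
    nlinarith [norm_nonneg (y - z)]
  by_contra h
  have h2 : ∀ N : ℕ, ∃ (b : ℕ) (u : XX P), u ∈ Sup P (Set.Ico (-b) b) ∧
      ‖u‖ ^ P.toReal = N * ‖z‖ ^ P.toReal ∧ N * (ε / 2) ≤ f u := fun N => by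
    induction N with
    | zero => exact ⟨0, 0, zero_mem _, by simp [show P.toReal ≠ 0 by linarith], by simp⟩
    | succ N ih =>
      obtain ⟨b, u, h2, h3, h4⟩ := ih
      obtain ⟨l, h5, h6⟩ := ((not_eventually.1 h).and_eventually
        ((tendsto_norm_cocompact_atTop (E := ℝ)).eventually_ge_atTop (b + B + 1 : ℝ))).exists
      have h7 := tau_sup hz (l := l) (c := ⌊l⌋ - B) (d := ⌊l⌋ + B + 1)
        (by push_cast; linarith [Int.floor_le l]) (by push_cast; linarith [Int.lt_floor_add_one l])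
      have h8 : (b : ℤ) + B + 1 ≤ ⌊l⌋ ∨ ⌊l⌋ ≤ -(b + B + 1) := by
        rcases le_abs.1 h6 with h | h
        · exact .inl (Int.le_floor.2 (by exact_mod_cast h))
        · exact .inr (Int.floor_le_iff.2 (by push_cast; linarith))
      obtain ⟨s, h9, h10⟩ : ∃ s : ℝ, |s| = 1 ∧ ε / 2 ≤ s * f (tau P l z) := by
        rcases le_abs.1 (not_lt.1 h5) with h | h
        exacts [⟨1, abs_one, by linarith⟩, ⟨-1, by simp, by linarith⟩]
      refine ⟨b + B + 1 + ⌊l⌋.natAbs, u + s • tau P l z, add_mem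
        (Sup_mono (Set.Ico_subset_Ico (by omega) (by omega)) h2) (Submodule.smul_mem _ _
        (Sup_mono (Set.Ico_subset_Ico (by omega) (by omega)) h7)), ?_, ?_⟩
      · rw [add2 hp h2 (Submodule.smul_mem _ s h7) (Set.Ico_disjoint_Ico.2 (by omega)), h3,
          norm_smul, (tau P l).norm_map, norm_eq_abs, h9, one_mul]
        push_cast; ring
      · rw [map_add, map_smul, smul_eq_mul]
        push_cast; linarith
  obtain ⟨N, h3, h4⟩ := ((((tendsto_rpow_atTop (show 0 < P.toReal - 1 by linarith)).comp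
    tendsto_natCast_atTop_atTop).eventually_gt_atTop ((‖f‖ * ‖z‖ / (ε / 2)) ^ P.toReal)).and
    (eventually_gt_atTop 0)).exists
  obtain ⟨b, u, -, h5, h6⟩ := h2 N
  have h7 : (0 : ℝ) < N := by exact_mod_cast h4
  have h8 := rpow_le_rpow (by positivity) (h6.trans ((le_abs_self _).trans (f.le_opNorm u)))
    (show 0 ≤ P.toReal by linarith)
  rw [Function.comp, rpow_sub_one h7.ne', div_rpow (by positivity) (by positivity),
    div_lt_div_iff₀ (by positivity) h7, mul_rpow (by positivity) (by positivity)] at h3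
  rw [mul_rpow (by positivity) (by positivity), mul_rpow (by positivity) (by positivity), h5] at h8
  linarith

theorem star (ψ0 : XX P) {ε : ℝ} (hε : 0 < ε) (h0 : ε ≤ ‖ψ0‖) : ∃ ψ, ‖ψ - ψ0‖ ≤ ε ∧
    Continuous (fun s => tau P s ψ) ∧ ∀ (h : XX P), ∀ e > 0, ∀ l : ℝ,
      ∃ (N : Type) (_ : Fintype N), ∀ η > 0, ∃ μ c : N → ℝ,
        (∀ j, |μ j - l| ≤ η) ∧ ‖∑ j, c j • tau P (μ j) ψ - h‖ ≤ e := by
  obtain ⟨_, h1, h2⟩ := Metric.dense_iff.1 (G_dense hp) ψ0 ε hε
  obtain ⟨q, rfl⟩ := Finsupp.mem_span_range_iff_exists_finsupp.1 h2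
  rw [mem_ball_iff_norm] at h1
  have hq : q ≠ 0 := by
    rintro rfl
    simp at h1
    linarith
  let ψ : ℕ → XX P := fun k => ∑ a ∈ q.support, q a • G hp (a + k)
  have hd : ∀ k l, HasDerivAt (fun s => tau P s (ψ k)) (tau P l (ψ (k + 1))) l := fun k l => by
    simp only [ψ, map_sum, map_smul]
    exact HasDerivAt.fun_sum fun a _ => (G_d hp (a + k) l).const_smul (q a)
  have hg : ∀ b, ∃ C, ∀ m, ‖ψ (b + m)‖ ≤ C * (6 ^ m * m !) := fun b => by
    choose C hC using G_le hp
    refine ⟨∑ a ∈ q.support, ‖q a‖ * C (a + b), fun m => (norm_sum_le _ _).trans ?_⟩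
    rw [sum_mul]
    refine sum_le_sum fun a _ => ?_
    rw [norm_smul, mul_assoc, ← add_assoc]
    exact mul_le_mul_of_nonneg_left (hC _ _) (norm_nonneg _)
  have h3 : ∀ k, ψ k ∈ AP (ψ 0) := fun k => by
    induction k with
    | zero => exact ⟨Unit, inferInstance, fun e he η hη => ⟨0, 1, by simpa using hη.le,
        by simpa [tau_zero] using he.le⟩⟩
    | succ k ih => exact AP_d ih (by simpa [tau_zero] using hd k 0)
  have h4 : Dense (AP (ψ 0) : Set (XX P)) := fun y => by
    by_contra hy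
    obtain ⟨f, t, h5, h6⟩ := geometric_hahn_banach_closed_point
      (AP (ψ 0)).topologicalClosure.convex (Submodule.isClosed_topologicalClosure _) hy
    have h7 : ∀ a ∈ (AP (ψ 0)).topologicalClosure, f a = 0 := fun a ha => by
      by_contra h
      have := h5 _ (Submodule.smul_mem _ (t / f a) ha)
      simp [h] at this
    have h8 := ode (U := fun a l => f (tau P l (G hp a))) (fun a l =>
      f.hasFDerivAt.comp_hasDerivAt l (G_d hp a l)) (fun a => c0 hp f _) hq fun l => by
        simpa [ψ] using h7 _ (inv hd hg (Submodule.isClosed_topologicalClosure _)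
          (fun k => Submodule.le_topologicalClosure _ (h3 k)) l)
    have h9 : f = 0 := ContinuousLinearMap.ext_on (G_dense hp) (by
      rintro _ ⟨a, rfl⟩
      simpa [tau_zero] using congrFun (h8 a) 0)
    have := h5 0 (zero_mem _)
    simp [h9] at this h6
    linarith
  refine ⟨ψ 0, h1.le, continuous_iff_continuousAt.2 fun l => (hd 0 l).continuousAt,
    fun h e he l => ?_⟩
  obtain ⟨y, h5, N, _, h6⟩ := Metric.dense_iff.1 h4 (tau P (-l) h) _ (half_pos he)
  refine ⟨N, inferInstance, fun η hη => ?_⟩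
  obtain ⟨μ, c, h7, h8⟩ := h6 _ (half_pos he) η hη
  refine ⟨fun j => l + μ j, c, by simpa using h7, ?_⟩
  have := AP_tau (ψ := ψ 0) (y := tau P (-l) h) μ c l
  rw [tau_tau, add_neg_cancel, tau_zero] at this
  rw [mem_ball_iff_norm] at h5
  linarith [norm_sub_le_norm_sub_add_norm_sub (∑ j, c j • tau P (μ j) (ψ 0)) y (tau P (-l) h)]

end Pool.Agent.H.MP_5d9214_an
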