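import Mathlib

namespace Pool.Agent.H.MP_5d9214_an

open MeasureTheory Filter Topology

/-- the space `L_p(ℝ)` with scalar field `K` -/
noncomputable abbrev LK (K : Type) [RCLike K] (p : ENNReal) : Type := Lp K p (volume : Measure ℝ)

/-- `g` is the translate `x ↦ f (x - a)` of `f` -/
def IsTransl {K : Type} [RCLike K] {p : ENNReal} (a : ℝ) (f g : LK K p) : Prop :=
  ∀ᵐ x : ℝ, g x = f (x - a)

/-- finite-dimensional decomposition -/
def IsFDD {K X : Type} [RCLike K] [NormedAddCommGroup X] [NormedSpace K X]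
    (E : ℕ → Submodule K X) : Prop :=
  (∀ k, FiniteDimensional K (E k)) ∧ ∀ x : X, ∃! y : ℕ → X, (∀ k, y k ∈ E k) ∧
    Tendsto (fun N => ∑ k ∈ Finset.range N, y k) atTop (𝓝 x)

/-- unconditional finite-dimensional decomposition: every rearranged expansion converges -/
def IsUFDD {K X : Type} [RCLike K] [NormedAddCommGroup X] [NormedSpace K X]
    (E : ℕ → Submodule K X) : Prop :=
  IsFDD E ∧ ∀ (x : X) (y : ℕ → X), (∀ k, y k ∈ E k) →
    Tendsto (fun N => ∑ k ∈ Finset.range N, y k) atTop (𝓝 x) →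
      ∀ π : Equiv.Perm ℕ, Tendsto (fun N => ∑ k ∈ Finset.range N, y (π k)) atTop (𝓝 x)

end Pool.Agent.H.MP_5d9214_an
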