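import Pool.Agent.H.MP_5d9214_an.D

namespace Pool.Agent.H.MP_5d9214_an

open Finset Real Filter Topology MeasureTheory Pool.Agent.H.MP_ada34c_an
open scoped ENNReal

lemma phase {J K : Type} [Fintype J] (β : K → J → ℝ) (μ : J → ℝ) {δ : ℝ} (hδ : 0 < δ)
    (s : Finset K) : ∃ (l : J → ℝ) (t : K → ℝ), (∀ j, |l j - μ j| < δ) ∧ ∀ k ∈ s, ∀ j,
      |cos (t k * l j) - cos (β k j)| < δ ∧ |sin (t k * l j) - sin (β k j)| < δ := by
  classical
  induction s using Finset.induction_on with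
  | empty => exact ⟨μ, 0, by simpa using fun _ => hδ, by simp⟩
  | insert i s hi ih =>
    obtain ⟨l, t, h1, h2⟩ := ih
    have key : ∀ F : (J → ℝ) → ℝ, Continuous F → |F l| < δ → ∀ᶠ u in 𝓝 l, |F u| < δ :=
      fun F h h' => h.abs.continuousAt.eventually_lt continuousAt_const h'
    obtain ⟨ε, hε, h3⟩ := Metric.eventually_nhds_iff.1 (show ∀ᶠ u in 𝓝 l, (∀ j, |u j - μ j| < δ) ∧
      ∀ k ∈ s, ∀ j, |cos (t k * u j) - cos (β k j)| < δ ∧ |sin (t k * u j) - sin (β k j)| < δ from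
      (eventually_all.2 fun j => key (fun u => u j - μ j) (by fun_prop) (h1 j)).and
      ((eventually_all_finset s).2 fun k hk => eventually_all.2 fun j =>
        (key (fun u => cos (t k * u j) - cos (β k j)) (by fun_prop) (h2 k hk j).1).and
        (key (fun u => sin (t k * u j) - sin (β k j)) (by fun_prop) (h2 k hk j).2)))
    have hπ := pi_pos
    obtain ⟨h4, h5⟩ := h3 (y := fun j => (β i j + ⌈(4 * π / ε * l j - β i j) / (2 * π)⌉ * (2 * π)) /
      (4 * π / ε)) ((dist_pi_lt_iff hε).2 fun j => by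
        have h4 := Int.le_ceil ((4 * π / ε * l j - β i j) / (2 * π))
        have h5 := Int.ceil_lt_add_one ((4 * π / ε * l j - β i j) / (2 * π))
        rw [div_le_iff₀ (by positivity)] at h4
        rw [← sub_lt_iff_lt_add, lt_div_iff₀ (by positivity)] at h5
        have h6 : ε * (4 * π / ε) = 4 * π := by field_simp
        rw [Real.dist_eq, abs_lt, lt_sub_iff_add_lt, sub_lt_iff_lt_add, lt_div_iff₀ (by positivity),
          div_lt_iff₀ (by positivity)]
        constructor <;> nlinarith)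
    refine ⟨_, Function.update t i (4 * π / ε), h4, fun k hk j => ?_⟩
    rcases mem_insert.1 hk with rfl | hk
    · rw [Function.update_self, mul_div_cancel₀ _ (by positivity), cos_add_int_mul_two_pi,
        sin_add_int_mul_two_pi]
      simpa using hδ
    · rw [Function.update_of_ne (ne_of_mem_of_not_mem hk hi)]
      exact h5 k hk j

variable {P : ℝ≥0∞}

/-- product with a bounded continuous function -/
def mulc (u : ℝ → ℝ) (hu : Continuous u) (hb : ∀ x, |u x| ≤ 1) (f : M P) : M P :=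
  ⟨fun x => u x * f.1 x, MemLp.mono f.2 (hu.aestronglyMeasurable.mul f.2.1)
    (Eventually.of_forall fun x => by
      rw [norm_mul]; exact mul_le_of_le_one_left (norm_nonneg _) (hb x))⟩

variable [Fact (1 ≤ P)] (hp : 1 < P.toReal)
include hp

lemma bump (t : ℝ) (A : ℤ) {W : ℕ} (hW : 0 < W) : ∃ a b : XX P, a ∈ Sup P (Set.Ico A (A + W)) ∧
    (1 / 2 ≤ ‖a‖ ∧ ‖a‖ ≤ 1 ∧ ‖b‖ ≤ 1) ∧ ∀ l δ : ℝ, 0 ≤ δ → 2 * |l| ≤ δ ^ P.toReal * W →
      ‖tau P l a - (cos (t * l) • a + sin (t * l) • b)‖ ≤ 2 * δ := by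
  have W0 : (0 : ℝ) < W := by exact_mod_cast hW
  have p0 : 0 < P.toReal := by linarith
  obtain ⟨c, c0, hc⟩ : ∃ c : ℝ, 0 < c ∧ c ^ P.toReal * W = 1 := ⟨(W : ℝ)⁻¹ ^ P.toReal⁻¹,
    by positivity, by rw [rpow_inv_rpow (by positivity) p0.ne']; field_simp⟩
  have h1 : ‖T P (c • ind P A (A + W))‖ = 1 := by
    rw [← rpow_left_inj (norm_nonneg _) zero_le_one p0.ne', ind_norm hp (by linarith), one_rpow,
      abs_of_pos c0, add_sub_cancel_left, hc]
  have h2 : ∀ x y δ : ℝ, 0 ≤ δ → x ≤ y → y - x ≤ δ ^ P.toReal * W →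
      ‖T P (c • ind P x y)‖ ≤ δ := fun x y δ h0 h h' => by
    rw [← rpow_le_rpow_iff (norm_nonneg _) h0 p0, ind_norm hp h, abs_of_pos c0]
    exact (mul_le_mul_of_nonneg_left h' (by positivity)).trans_eq
      (by rw [mul_left_comm, hc, mul_one])
  let a : ℝ → M P := fun α => mulc (fun x => cos (t * x - α)) (by fun_prop)
    (fun _ => abs_cos_le_one _) (c • ind P A (A + W))
  have h3 : ∀ α, ‖T P (a α)‖ ≤ 1 := fun α => h1 ▸ T_le fun x => by
    exact (abs_mul _ _).trans_le (mul_le_of_le_one_left (abs_nonneg _) (abs_cos_le_one _))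
  obtain ⟨α, h4⟩ : ∃ α, 1 / 2 ≤ ‖T P (a α)‖ := by
    by_contra! h
    have h4 : ∀ f : M P, ‖T P ⟨|f.1|, MemLp.abs f.2⟩‖ ≤ ‖T P f‖ := fun f =>
      T_le fun x => (abs_abs _).le
    have h5 := T_le (f := c • ind P A (A + W)) (g := ⟨|(a 0).1|, MemLp.abs (a 0).2⟩ +
      ⟨|(a (π / 2)).1|, MemLp.abs (a (π / 2)).2⟩) fun x => le_trans ?_ (le_abs_self _)
    · rw [map_add] at h5
      linarith [h4 (a 0), h4 (a (π / 2)), h 0, h (π / 2), h5.trans (norm_add_le _ _)]
    change _ ≤ |cos (t * x - 0) * _| + |cos (t * x - π / 2) * _|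
    rw [abs_mul, abs_mul, ← add_mul, sub_zero, cos_sub_pi_div_two]
    refine le_mul_of_one_le_left (abs_nonneg _) ?_
    nlinarith [abs_cos_le_one (t * x), abs_sin_le_one (t * x), sq_abs (cos (t * x)),
      sq_abs (sin (t * x)), cos_sq_add_sin_sq (t * x), abs_nonneg (cos (t * x)),
      abs_nonneg (sin (t * x))]
  refine ⟨T P (a α), T P (a (α + π / 2)), ⟨_, rfl, fun x hx => ?_⟩, ⟨h4, h3 _, h3 _⟩,
    fun l δ h0 h => ?_⟩
  · change _ * (c * (ind P _ _).1 x) = 0
    rw [ind_apply, if_neg fun h => hx ⟨Int.le_floor.2 h.1, Int.floor_lt.2 (by simpa using h.2)⟩]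
    simp
  rw [tau_T, ← map_smul, ← map_smul, ← map_add, ← map_sub]
  refine (T_le (g := c • ind P (A - |l|) (A + |l|) + c • ind P (A + W - |l|) (A + W + |l|))
    fun x => ?_).trans ?_
  · change |cos (t * (x - l) - α) * (c * (ind P _ _).1 (x - l)) - (cos (t * l) *
      (cos (t * x - α) * (c * (ind P _ _).1 x)) + sin (t * l) * (cos (t * x - (α + π / 2)) *
      (c * (ind P _ _).1 x)))| ≤ |c * (ind P _ _).1 x + c * (ind P _ _).1 x|
    rw [← sub_sub (t * x), cos_sub_pi_div_two, ← mul_assoc (cos (t * l)), ← mul_assoc (sin (t * l)),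
      ← add_mul, ← cos_sub, ← cos_neg (t * l - _), show -(t * l - (t * x - α)) = t * (x - l) - α by
        ring, ← mul_sub, ← mul_sub, ← mul_add, abs_mul, abs_mul, abs_mul]
    refine (mul_le_of_le_one_left (by positivity) (abs_cos_le_one _)).trans
      (mul_le_mul_of_nonneg_left ?_ (abs_nonneg _))
    have := le_abs_self l
    have := neg_abs_le l
    simp only [ind_apply]
    split_ifs <;> first | (norm_num; done) | grind
  · have := abs_nonneg l
    rw [map_add, two_mul]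
    exact (norm_add_le _ _).trans (add_le_add (h2 _ _ _ h0 (by linarith) (by linarith))
      (h2 _ _ _ h0 (by linarith) (by linarith)))

lemma eig {J K : Type} [Fintype J] [Fintype K] (β : K → J → ℝ) (μ : J → ℝ) {δ : ℝ} (hδ : 0 < δ)
    (R : ℤ) : ∃ (l : J → ℝ) (a b : K → XX P) (I : K → Set ℤ) (R' : ℤ), (∀ j, |l j - μ j| ≤ δ) ∧
      (∀ k, a k ∈ Sup P (I k)) ∧ (∀ k, I k ⊆ Set.Ico R R') ∧
      (Pairwise fun i j => Disjoint (I i) (I j)) ∧ (∀ k, 1 / 2 ≤ ‖a k‖ ∧ ‖a k‖ ≤ 1 ∧ ‖b k‖ ≤ 1) ∧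
      ∀ k j, ‖tau P (l j) (a k) - (cos (β k j) • a k + sin (β k j) • b k)‖ ≤ δ := by
  obtain ⟨l, t, h1, h2⟩ := phase β μ (show 0 < δ / 4 by positivity) univ
  obtain ⟨W, hW⟩ := exists_nat_gt ((2 * ∑ j, |l j|) / (δ / 4) ^ P.toReal)
  have W0 : 0 < W := by exact_mod_cast (lt_of_le_of_lt (by positivity) hW : (0 : ℝ) < W)
  rw [div_lt_iff₀' (by positivity)] at hW
  let e := Fintype.equivFin K
  choose a b h3 h4 h5 using fun k => bump hp (t k) (R + (e k : ℕ) * W) W0
  refine ⟨l, a, b, _, R + Fintype.card K * W, fun j => by linarith [h1 j], h3,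
    fun k => Set.Ico_subset_Ico (by simp; positivity) ?_, fun i j hij => Set.Ico_disjoint_Ico.2 ?_,
    h4, fun k j => ?_⟩
  · have : ((e k : ℕ) : ℤ) + 1 ≤ Fintype.card K := by exact_mod_cast (e k).2
    nlinarith
  · rcases lt_or_gt_of_ne (Fin.val_ne_iff.2 (e.injective.ne hij)) with h | h
    · have : ((e i : ℕ) : ℤ) + 1 ≤ (e j : ℕ) := by exact_mod_cast h
      exact (min_le_left _ _).trans (le_max_of_le_right (by nlinarith))
    · have : ((e j : ℕ) : ℤ) + 1 ≤ (e i : ℕ) := by exact_mod_cast h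
      exact (min_le_right _ _).trans (le_max_of_le_left (by nlinarith))
  · have h6 := h5 k (l j) (δ / 4) (by positivity) (by
      linarith [single_le_sum (f := fun j => |l j|) (fun _ _ => abs_nonneg _) (mem_univ j)])
    obtain ⟨h7, h8⟩ := h2 k (mem_univ k) j
    refine (norm_sub_le_norm_sub_add_norm_sub _ _ _).trans ((add_le_add h6 (show _ ≤ δ / 2 from
      ?_)).trans_eq (by ring))
    rw [add_sub_add_comm, ← sub_smul, ← sub_smul]
    refine (norm_add_le _ _).trans ?_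
    rw [norm_smul, norm_smul, norm_eq_abs, norm_eq_abs]
    linarith [mul_le_of_le_one_right (abs_nonneg (cos (t k * l j) - cos (β k j))) (h4 k).2.1,
      mul_le_of_le_one_right (abs_nonneg (sin (t k * l j) - sin (β k j))) (h4 k).2.2]

omit hp in
lemma cont0 {u : XX P} (h : Continuous fun s => tau P s u) {ω : ℝ} (hω : 0 < ω) :
    ∃ η > 0, ∀ s t, |s - t| ≤ η → ‖tau P s u - tau P t u‖ ≤ ω := by
  obtain ⟨η, h1, h2⟩ := Metric.continuous_iff.1 h 0 ω hω
  refine ⟨η / 2, half_pos h1, fun s t h3 => ?_⟩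
  have := h2 (s - t) (by rw [dist_zero_right, norm_eq_abs]; linarith)
  rw [dist_eq_norm, ← (tau P t).norm_map, map_sub, tau_tau, tau_tau, add_sub_cancel, add_zero] at this
  exact this.le

omit hp in
lemma rot {a b : XX P} (ha : ‖a‖ ≤ 1) (hb : ‖b‖ ≤ 1) {w γ : ℝ} (h : w ^ 2 + 1 ≤ γ) :
    ‖w • a + γ • ((cos (π / 2 + w / γ) • a + sin (π / 2 + w / γ) • b) - b)‖ ≤ 1 := by
  have h0 : 0 < γ := lt_of_lt_of_le (by positivity) h
  obtain ⟨θ, rfl⟩ : ∃ θ, w = γ * θ := ⟨w / γ, by field_simp⟩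
  rw [mul_div_cancel_left₀ _ h0.ne', add_comm (π / 2), cos_add_pi_div_two, sin_add_pi_div_two,
    show (γ * θ) • a + γ • ((-sin θ • a + cos θ • b) - b) =
      γ • ((θ - sin θ) • a - (1 - cos θ) • b) by module, norm_smul, norm_of_nonneg h0.le]
  have h1 := norm_sub_le ((θ - sin θ) • a) ((1 - cos θ) • b)
  rw [norm_smul, norm_smul, norm_eq_abs, norm_of_nonneg (sub_nonneg.2 (cos_le_one θ))] at h1
  have h2 := mul_le_of_le_one_right (abs_nonneg (θ - sin θ)) ha
  have h3 := mul_le_of_le_one_right (sub_nonneg.2 (cos_le_one θ)) hb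
  have h4 := abs_sub_sin_le θ
  have h5 := one_sub_sq_div_two_le_cos (x := θ)
  have h6 : γ * θ ^ 2 ≤ 1 := le_of_mul_le_mul_left (by nlinarith) h0
  have h7 : |θ| ≤ 1 := by
    rw [← sq_le_one_iff_abs_le_one]
    nlinarith [sq_nonneg (γ * θ), sq_nonneg θ]
  have h8 : |θ| ^ 3 ≤ θ ^ 2 := by
    rw [← sq_abs]; exact pow_le_pow_of_le_one (abs_nonneg _) h7 (by norm_num)
  refine le_trans (mul_le_mul_of_nonneg_left ?_ h0.le) h6
  nlinarith [sq_nonneg θ]

end Pool.Agent.H.MP_5d9214_an
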