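import Pool.Agent.H.MP_5d9214_an.E

namespace Pool.Agent.H.MP_5d9214_an

open Finset Real Filter Topology MeasureTheory Pool.Agent.H.MP_ada34c_an
open scoped ENNReal

section
variable {X : Type} [NormedAddCommGroup X] [NormedSpace ℝ X] {κ : Type} {N : κ → Type}
  [∀ l, Fintype (N l)]

/-- change of generators -/
noncomputable def YY (c : ∀ l, N l → ℝ) (σ γ : ℝ) :
    κ ⊕ (Σ l, N l) ⊕ Bool → (((Σ l, N l) ⊕ κ ⊕ Bool) → X) →L[ℝ] X
  | .inl l => ∑ j, c l j • .proj (.inl ⟨l, j⟩) + γ • (.proj (.inr (.inl l)) - .proj (.inr (.inr true)))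
  | .inr (.inl k) => (2 * σ)⁻¹ • (.proj (.inr (.inr false)) - .proj (.inl k))
  | .inr (.inr b) => .proj (.inr (.inr b))

lemma YY_span (c : ∀ l, N l → ℝ) {σ γ : ℝ} (hσ : σ ≠ 0) (hγ : γ ≠ 0)
    (x : (Σ l, N l) ⊕ κ ⊕ Bool → X) :
    Submodule.span ℝ (Set.range fun i => YY c σ γ i x) = Submodule.span ℝ (Set.range x) := by
  refine le_antisymm (Submodule.span_le.2 (Set.range_subset_iff.2 ?_))
    (Submodule.span_le.2 (Set.range_subset_iff.2 ?_))
  · have h : ∀ j, x j ∈ Submodule.span ℝ (Set.range x) := fun j => Submodule.subset_span ⟨j, rfl⟩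
    rintro (l | k | b)
    · simpa [YY] using add_mem (sum_mem fun j _ => Submodule.smul_mem _ (c l j) (h (.inl ⟨l, j⟩)))
        (Submodule.smul_mem _ γ (sub_mem (h (.inr (.inl l))) (h (.inr (.inr true)))))
    · exact Submodule.smul_mem _ _ (sub_mem (h _) (h _))
    · exact h _
  · have h : ∀ i, YY c σ γ i x ∈ Submodule.span ℝ (Set.range fun i => YY c σ γ i x) :=
      fun j => Submodule.subset_span ⟨j, rfl⟩
    have h1 : ∀ k, x (.inl k) ∈ Submodule.span ℝ (Set.range fun i => YY c σ γ i x) := fun k => by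
      convert sub_mem (h (.inr (.inr false))) (Submodule.smul_mem _ (2 * σ) (h (.inr (.inl k))))
      simp [YY, smul_inv_smul₀ (mul_ne_zero two_ne_zero hσ), -mul_inv_rev]
    rintro (k | l | b)
    · exact h1 k
    · have := add_mem (h (.inr (.inr true))) (Submodule.smul_mem _ γ⁻¹ (sub_mem (h (.inl l))
        (sum_mem fun j (_ : j ∈ univ) => Submodule.smul_mem _ (c l j) (h1 ⟨l, j⟩))))
      convert this
      simp [YY, smul_smul, hγ]
    · exact h (.inr (.inr b))

end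

variable {P : ℝ≥0∞} [Fact (1 ≤ P)] (hp : 1 < P.toReal)
include hp

theorem block (ψ0 : XX P) (h1 : 1 ≤ ‖ψ0‖) {κ : Type} [Fintype κ] (h : κ → XX P) {ε : ℝ}
    (hε : 0 < ε) (R : ℤ) : ∃ (ψ : XX P) (I J : Type) (_ : Fintype I) (_ : Fintype J) (_ : Nonempty J)
      (l : J → ℝ) (d : I → XX P) (S : I → Set ℤ) (R' : ℤ) (Y : κ ⊕ I → (J → XX P) →L[ℝ] XX P),
      ‖ψ - ψ0‖ ≤ ε ∧ (∀ i, d i ∈ Sup P (S i)) ∧ (∀ i, S i ⊆ Set.Ico R R') ∧
      (Pairwise fun i j => Disjoint (S i) (S j)) ∧ (∀ i, 1 / 2 ≤ ‖d i‖) ∧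
      (∀ x, Submodule.span ℝ (Set.range fun i => Y i x) = Submodule.span ℝ (Set.range x)) ∧
      ∑ i, ‖Y i (fun j => tau P (l j) ψ) - Sum.elim h d i‖ ≤ ε := by
  classical
  obtain ⟨e, e0, e1, e2⟩ : ∃ e : ℝ, 0 < e ∧ e ≤ 1 / 8 ∧ (2 * Fintype.card κ + 6) * e ≤ ε :=
    ⟨min (1 / 8) (ε / (2 * Fintype.card κ + 6)), by positivity, min_le_left _ _, by
      rw [← le_div_iff₀' (by positivity)]; exact min_le_right _ _⟩
  obtain ⟨u, h2, hu, h3⟩ := star hp ψ0 e0 (by linarith)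
  obtain ⟨B, z, hz, h4⟩ := approx' hp u e0
  choose N _ hN using fun l => h3 (h l) e e0 (R + B)
  obtain ⟨n, hn⟩ : ∃ n : ℝ, n = Fintype.card (Σ l, N l) := ⟨_, rfl⟩
  have n0 : 0 ≤ n := hn ▸ Nat.cast_nonneg _
  obtain ⟨σ, σ0, hσ⟩ : ∃ σ : ℝ, 0 < σ ∧ σ * (n + 1) = e := ⟨e / (n + 1), by positivity, by field_simp⟩
  obtain ⟨η, η0, hη⟩ := cont0 hu (show 0 < σ * σ by positivity)
  choose μ c hμ hc using fun l => hN l η η0
  let w : (Σ l, N l) → κ → ℝ := fun k l => ∑ j, c l j * if ⟨l, j⟩ = k then -1 else 1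
  obtain ⟨γ, γ0, hγ⟩ : ∃ γ : ℝ, 0 < γ ∧ ∀ k l, w k l ^ 2 + 1 ≤ γ :=
    ⟨∑ q : _ × κ, w q.1 q.2 ^ 2 + 1, by positivity, fun k l => by
      simpa using single_le_sum (f := fun q : _ × κ => w q.1 q.2 ^ 2) (fun _ _ => sq_nonneg _)
        (mem_univ (k, l))⟩
  obtain ⟨δ, δ0, δ1, hδ⟩ : ∃ δ : ℝ, 0 < δ ∧ δ ≤ 1 ∧ (∑ i, ‖YY (X := XX P) c σ γ i‖) * δ ≤ e :=
    ⟨min 1 (e / (∑ i, ‖YY (X := XX P) c σ γ i‖ + 1)), by positivity, min_le_left _ _, by
      have := (le_div_iff₀ (by positivity)).1 (min_le_right 1 (e / (∑ i, ‖YY (X := XX P) c σ γ i‖ + 1)))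
      have : 0 < min 1 (e / (∑ i, ‖YY (X := XX P) c σ γ i‖ + 1)) := by positivity
      linarith⟩
  obtain ⟨ρ, ρ0, hρ⟩ := cont0 hu (half_pos δ0)
  let β : (Σ l, N l) → (Σ l, N l) ⊕ κ ⊕ Bool → ℝ := fun k => Sum.elim
    (fun j => if j = k then π else 0) (Sum.elim (fun l => π / 2 + w k l / γ) fun b => bif b then π / 2 else 0)
  let m : (Σ l, N l) ⊕ κ ⊕ Bool → ℝ := Sum.elim (fun j => μ j.1 j.2)
    (Sum.elim (fun _ => R + 3 * B) fun b => bif b then R + 3 * B else R + B)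
  obtain ⟨l, a, b, I, R', h5, h6, h7, h8, h9, h10⟩ := eig hp β m (lt_min ρ0 δ0) (R + 4 * B)
  have hs : ∀ y : (Σ l, N l) → XX P, ∀ t, 0 ≤ t → (∀ k, ‖y k‖ ≤ t) → ‖σ • ∑ k, y k‖ ≤ e * t :=
    fun y t t0 hy => by
      have := norm_sum_le_of_le univ fun k _ => hy k
      rw [sum_const, card_univ, nsmul_eq_mul, ← hn] at this
      rw [norm_smul, norm_of_nonneg σ0.le, ← hσ]
      nlinarith
  let S : Bool → Set ℤ := fun b => bif b then Set.Ico (R + 2 * B) (R + 4 * B) else Set.Ico R (R + 2 * B)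
  have hS : ∀ b, S b ⊆ Set.Ico R (R + 4 * B) := by
    rintro (_ | _) <;> exact Set.Ico_subset_Ico (by omega) (by omega)
  have hI : ∀ k b, Disjoint (I k) (S b) := fun k b =>
    Set.disjoint_left.2 fun x h h' => (h7 k h).1.not_gt (hS b h').2
  refine ⟨u + σ • ∑ k, a k, (Σ l, N l) ⊕ Bool, (Σ l, N l) ⊕ κ ⊕ Bool, inferInstance, inferInstance,
    inferInstance, l, Sum.elim a fun b => tau P (m (.inr (.inr b))) z, Sum.elim I S,
    max R' (R + 4 * B), YY c σ γ, ?_, ?_, ?_, ?_, ?_, YY_span c σ0.ne' γ0.ne', ?_⟩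
  · rw [add_sub_right_comm]
    have := hs a 1 zero_le_one fun k => (h9 k).2.1
    have := Nat.cast_nonneg (α := ℝ) (Fintype.card κ)
    nlinarith [norm_add_le (u - ψ0) (σ • ∑ k, a k)]
  · rintro (k | _ | _)
    · exact h6 k
    all_goals refine tau_sup hz ?_ ?_ <;> simp only [m, Sum.elim_inr, cond_true, cond_false] <;>
      push_cast <;> linarith
  · rintro (k | b)
    · exact (h7 k).trans (Set.Ico_subset_Ico (by omega) (le_max_left _ _))
    · exact (hS b).trans (Set.Ico_subset_Ico le_rfl (le_max_right _ _))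
  · rintro (k | b) (k' | b') hk
    · exact h8 fun h => hk (congrArg _ h)
    · exact hI _ _
    · exact (hI _ _).symm
    · cases b <;> cases b' <;> first | exact absurd rfl hk | exact Set.Ico_disjoint_Ico.2 (by omega)
  · rintro (k | b)
    · exact (h9 k).1
    · have := norm_sub_norm_le ψ0 u
      rw [norm_sub_rev] at this
      change _ ≤ ‖tau P _ z‖
      rw [(tau P _).norm_map]
      linarith [norm_sub_norm_le u z]
  let y : (Σ l, N l) ⊕ κ ⊕ Bool → XX P := fun j =>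
    tau P (m j) u + σ • ∑ k, (cos (β k j) • a k + sin (β k j) • b k)
  have h11 : ‖(fun j => tau P (l j) (u + σ • ∑ k, a k)) - y‖ ≤ δ :=
    (pi_norm_le_iff_of_nonneg δ0.le).2 fun j => by
      have h11 := hs _ δ δ0.le fun k => (h10 k j).trans (min_le_right _ _)
      have h12 := hρ _ _ ((h5 j).trans (min_le_left _ _))
      rw [sum_sub_distrib, smul_sub] at h11
      simp only [y, Pi.sub_apply, map_add, map_smul, map_sum, add_sub_add_comm]
      nlinarith [norm_add_le (tau P (l j) u - tau P (m j) u) (σ • ∑ k, tau P (l j) (a k) -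
        σ • ∑ k, (cos (β k j) • a k + sin (β k j) • b k))]
  have h12 : ∀ i, ‖YY c σ γ i (fun j => tau P (l j) (u + σ • ∑ k, a k)) - YY c σ γ i y‖ ≤
      ‖YY (X := XX P) c σ γ i‖ * δ := fun i => by
    rw [← map_sub]
    exact (ContinuousLinearMap.le_opNorm _ _).trans (mul_le_mul_of_nonneg_left h11 (norm_nonneg _))
  have h13 : ∀ l, ‖YY c σ γ (.inl l) y - h l‖ ≤ 2 * e := fun l => by
    have h13 := hs _ 1 zero_le_one fun k => rot (h9 k).2.1 (h9 k).2.2 (hγ k l)
    have h14 : ∀ k j, cos (β k (.inl j)) • a k + sin (β k (.inl j)) • b k =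
        (if j = k then -1 else 1 : ℝ) • a k := fun k j => by
      by_cases h : j = k <;> simp [β, h]
    have h15 : ∑ j, c l j • σ • ∑ k, (if ⟨l, j⟩ = k then -1 else 1 : ℝ) • a k =
        σ • ∑ k, w k l • a k := by
      simp only [w, smul_sum, sum_smul, smul_smul]
      rw [sum_comm]
      exact sum_congr rfl fun _ _ => sum_congr rfl fun _ _ => by rw [mul_left_comm]
    refine le_of_eq_of_le (congrArg norm ?_) ((norm_add_le _ _).trans ((add_le_add (hc l) h13).trans_eq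
      (by ring)))
    simp only [YY, y, ContinuousLinearMap.add_apply, ContinuousLinearMap.sum_apply,
      ContinuousLinearMap.smul_apply, ContinuousLinearMap.sub_apply, ContinuousLinearMap.proj_apply,
      h14]
    simp only [smul_add (c l _), sum_add_distrib, h15, sum_sub_distrib, ← smul_sum]
    simp only [β, m, Sum.elim_inl, Sum.elim_inr, cond_true, cos_pi_div_two, sin_pi_div_two,
      zero_smul, one_smul, sum_const_zero, zero_add]
    module
  have h14 : ∀ k, ‖YY c σ γ (.inr (.inl k)) y - a k‖ ≤ σ := fun k => by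
    have h14 := hη _ _ (hμ k.1 k.2)
    have h15 : ∑ i, a i - ∑ i, (cos (β i (.inl k)) • a i + sin (β i (.inl k)) • b i) =
        (2 : ℝ) • a k := by
      rw [← sum_sub_distrib, sum_eq_single k (fun i _ hi => by simp [β, hi.symm]) (by simp)]
      simp [β, two_smul]
    have h16 : YY c σ γ (.inr (.inl k)) y - a k =
        -(2 * σ)⁻¹ • (tau P (μ k.1 k.2) u - tau P (R + B) u) := by
      simp only [YY, y, ContinuousLinearMap.smul_apply, ContinuousLinearMap.sub_apply,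
        ContinuousLinearMap.proj_apply, ← sub_eq_of_eq_add (eq_add_of_sub_eq' h15)]
      simp only [β, m, Sum.elim_inl, Sum.elim_inr, cond_false, cos_zero, sin_zero,
        zero_smul, one_smul, add_zero]
      match_scalars <;> field_simp <;> ring
    rw [h16, norm_smul, norm_neg, norm_of_nonneg (by positivity), inv_mul_le_iff₀ (by positivity)]
    nlinarith
  have h15 : ∀ t, ‖YY c σ γ (.inr (.inr t)) y - tau P (m (.inr (.inr t))) z‖ ≤ 2 * e := fun t => by
    have h15 := hs (fun k => cos (β k (.inr (.inr t))) • a k + sin (β k (.inr (.inr t))) • b k) 1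
      zero_le_one fun k => by cases t <;> simp [β, (h9 k).2]
    change ‖tau P _ u + _ - _‖ ≤ _
    rw [add_sub_right_comm, ← map_sub]
    exact (norm_add_le _ _).trans ((add_le_add (((tau P _).norm_map _).trans_le h4) h15).trans_eq
      (by ring))
  refine (sum_le_sum fun i _ => (norm_sub_le_norm_sub_add_norm_sub _ (YY c σ γ i y) _).trans
    (add_le_add (h12 i) le_rfl)).trans ?_
  rw [sum_add_distrib, ← sum_mul, Fintype.sum_sum_type (fun i => ‖YY c σ γ i y - _‖),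
    Fintype.sum_sum_type (fun i => ‖YY c σ γ (.inr i) y - _‖), Fintype.sum_bool]
  have h16 := sum_le_sum fun l (_ : l ∈ univ) => h13 l
  have h17 := sum_le_sum fun l (_ : l ∈ univ) => h14 l
  rw [sum_const, card_univ, nsmul_eq_mul] at h16 h17
  rw [← hn] at h17
  simp only [Sum.elim_inl, Sum.elim_inr]
  linarith [h15 true, h15 false]

end Pool.Agent.H.MP_5d9214_an
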