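import Pool.Agent.H.MP_5d9214_an.F

namespace Pool.Agent.H.MP_5d9214_an

open Finset Real Filter Topology MeasureTheory Pool.Agent.H.MP_ada34c_an
open scoped ENNReal Classical

lemma coord {X : Type} [NormedAddCommGroup X] [NormedSpace ℝ X] (U : Submodule ℝ X)
    [FiniteDimensional ℝ U] : ∃ (n : ℕ) (h : Fin n → X) (κ : ℝ), 0 ≤ κ ∧
      Submodule.span ℝ (Set.range h) = U ∧ ∀ (b : Fin n → ℝ) i, |b i| ≤ κ * ‖∑ j, b j • h j‖ := by
  let B := Module.finBasis ℝ U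
  refine ⟨_, fun i => B i, ‖B.equivFunL.toContinuousLinearMap‖, ContinuousLinearMap.opNorm_nonneg _, ?_, fun b i => ?_⟩
  · have := congrArg (Submodule.map U.subtype) B.span_eq
    rwa [Submodule.map_span, ← Set.range_comp, Submodule.map_top, Submodule.range_subtype] at this
  · have := B.equivFunL.toContinuousLinearMap.le_opNorm (B.equivFun.symm b)
    rw [show B.equivFunL.toContinuousLinearMap (B.equivFun.symm b) = b from B.equivFun.apply_symm_apply b,
      B.equivFun_symm_apply, ← Submodule.norm_coe, Submodule.coe_sum] at this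
    exact (norm_le_pi_norm b i).trans this

/-- coefficient vectors -/
abbrev V := ℤ × ℕ →₀ ℝ

/-- restriction of coefficients -/
noncomputable def fl (q : ℤ × ℕ → Prop) : V →ₗ[ℝ] V where
  toFun := Finsupp.filter q
  map_add' _ _ := Finsupp.filter_add
  map_smul' _ _ := Finsupp.filter_smul

lemma fl_apply (q : ℤ × ℕ → Prop) (a : V) (i : ℤ × ℕ) : fl q a i = if q i then a i else 0 := rfl

variable {P : ℝ≥0∞} [Fact (1 ≤ P)]

/-- state of the construction -/
structure St (P : ℝ≥0∞) [Fact (1 ≤ P)] where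
  ψ : XX P
  δ : ℝ
  S : Finset (ℤ × ℕ)
  R : ℤ
  C : Submodule ℝ V
  h1 : 0 < δ
  h2 : 1 + δ ≤ ‖ψ‖
  h3 : ∀ i ∈ S, i.1 < R
  h4 : ∀ c ∈ C, ∀ i, c i ≠ 0 → i ∈ S

/-- one step of the construction -/
structure Rel (C ε : ℝ) (i0 : ℤ × ℕ) (s t : St P) (L : Finset ℝ) (q : V →ₗ[ℝ] V) : Prop where
  r1 : ‖t.ψ - s.ψ‖ + t.δ ≤ s.δ
  r2 : t.δ ≤ s.δ / 2
  r3 : s.S ⊆ t.S
  r4 : i0 ∈ t.S
  r5 : s.R ≤ t.R
  r6 : L.Nonempty
  q1 : ∀ a i, q a i ≠ 0 → i ∈ t.S ∧ s.R ≤ i.1
  q2 : ∀ a : V, (∀ i, a i ≠ 0 → i ∉ t.S ∨ i.1 < s.R) → q a = 0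
  q3 : ∀ a, q (q a) = q a
  q4 : ∀ a, ‖sy P (q a)‖ ≤ C * C * ‖sy P a‖
  c1 : ∀ c : V, c ∈ t.C ↔ (∀ i, c i ≠ 0 → i ∈ t.S ∧ i ∉ s.S) ∧ q c = 0
  cl : ∀ u, ‖u - t.ψ‖ ≤ t.δ → Close (Submodule.span ℝ ((fun l => tau P l u) '' L))
    ((s.C ⊔ LinearMap.range q).map (sy P)) ε

variable (hp : 1 < P.toReal) {C : ℝ} (C0 : 0 < C) (hC : ∀ a q, ‖sy P (fl q a)‖ ≤ C * ‖sy P a‖)
include hp

lemma near {d : XX P} {J : Set ℤ} (hd : d ∈ Sup P J) {η : ℝ} (hη : 0 < η) :
    ∃ a : V, (∀ i, a i ≠ 0 → i.1 ∈ J) ∧ ‖d - sy P a‖ ≤ η := by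
  obtain ⟨a, ha⟩ := Metric.denseRange_iff.1 (sy_dense hp) d η hη
  have h1 : ∀ i, fl (·.1 ∈ J) a i ≠ 0 → i.1 ∈ J := fun i => by simp +contextual [fl_apply]
  refine ⟨_, h1, (le2 hp (sub_mem hd (sy_sup h1)) (sy_sup (J := Jᶜ) (a := fl (·.1 ∈ J) a - a)
    fun i => by by_cases h : i.1 ∈ J <;> simp [fl_apply, h]) disjoint_compl_right).trans ?_⟩
  rw [map_sub, sub_add_sub_cancel, ← dist_eq_norm]
  exact ha.le

include C0 hC

lemma locs {I : Type} (s : Finset I) {y : I → XX P} {J : I → Set ℤ} (hy : ∀ i, y i ∈ Sup P (J i))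
    (h : Pairwise fun i j => Disjoint (J i) (J j)) (a : V) {K : ℝ} (hK : 0 ≤ K)
    (hb : ∀ i ∈ s, ‖y i‖ ≤ K * ‖sy P (fl (·.1 ∈ J i) a)‖) :
    ‖∑ i ∈ s, y i‖ ≤ K * C * ‖sy P a‖ := by
  have h1 : ∑ i ∈ s, fl (·.1 ∈ J i) a = fl (fun j => ∃ i ∈ s, j.1 ∈ J i) a := by
    ext j
    rw [Finsupp.finset_sum_apply, fl_apply]
    split_ifs with h1
    · obtain ⟨i, h1, h2⟩ := h1
      exact (sum_eq_single_of_mem i h1 fun k _ hk => if_neg fun h3 =>
        Set.disjoint_left.1 (h hk) h3 h2).trans (if_pos h2)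
    · exact sum_eq_zero fun i hi => if_neg fun h2 => h1 ⟨i, hi, h2⟩
  refine le_trans ?_ ((mul_le_mul_of_nonneg_left (hC a fun j => ∃ i ∈ s, j.1 ∈ J i) hK).trans_eq
    (mul_assoc _ _ _).symm)
  rw [← rpow_le_rpow_iff (norm_nonneg _) (by positivity) (show 0 < P.toReal by linarith),
    addN hp s hy h, mul_rpow hK (norm_nonneg _), ← h1, map_sum, addN hp s (fun i => sy_sup
      fun j => by simp +contextual [fl_apply]) h, mul_sum]
  refine sum_le_sum fun i hi => ?_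
  rw [← mul_rpow hK (norm_nonneg _)]
  exact rpow_le_rpow (norm_nonneg _) (hb i hi) (by linarith)

theorem step {ε : ℝ} (hε : 0 < ε) (i0 : ℤ × ℕ) (s : St P) : ∃ t L q, Rel C ε i0 s t L q := by
  have : FiniteDimensional ℝ (Finsupp.supported ℝ ℝ (s.S : Set (ℤ × ℕ))) :=
    (Finsupp.supportedEquivFinsupp (R := ℝ) (s.S : Set (ℤ × ℕ))).symm.finiteDimensional
  have : FiniteDimensional ℝ s.C := Submodule.finiteDimensional_of_le
    (show s.C ≤ Finsupp.supported ℝ ℝ (s.S : Set (ℤ × ℕ)) from fun c hc i hi =>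
      s.h4 c hc i (by simpa using hi))
  obtain ⟨n, h, κ, κ0, h1, h2⟩ := coord (s.C.map (sy P))
  obtain ⟨η, η0, hη⟩ : ∃ η : ℝ, 0 < η ∧ (κ * C + 4 * C) * (3 * η) = ε :=
    ⟨ε / (3 * (κ * C + 4 * C)), by positivity, by field_simp⟩
  have δ0 := s.h1
  obtain ⟨ψ, I, J, _, _, _, l, d, S, R, Y, b1, b2, b3, b4, b5, b6, b7⟩ := block hp s.ψ
    (by linarith [s.h2]) h (lt_min η0 (half_pos δ0)) s.R
  choose a a1 a2 using fun i => near hp (b2 i)
    (show 0 < min (1 / 4) (η / (Fintype.card I + 1)) by positivity)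
  have a3 : ∀ i, 1 / 4 ≤ ‖sy P (a i)‖ := fun i => by
    linarith [b5 i, (a2 i).trans (min_le_left _ _), norm_sub_norm_le (d i) (sy P (a i))]
  choose f f1 f2 using fun i => exists_dual_vector'' ℝ (sy P (a i))
  let co : I → V →ₗ[ℝ] ℝ := fun i =>
    ‖sy P (a i)‖⁻¹ • (f i : XX P →ₗ[ℝ] ℝ) ∘ₗ sy P ∘ₗ fl (a i · ≠ 0)
  have c1 : ∀ i (v : V), (∀ j, v j ≠ 0 → a i j = 0) → co i v = 0 := fun i v hv => by
    have : fl (a i · ≠ 0) v = 0 := Finsupp.ext fun j => by
      by_cases h : v j = 0 <;> simp [fl_apply, h, hv j]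
    simp [co, this]
  have c2 : ∀ i j, co i (a j) = if i = j then 1 else 0 := fun i j => by
    split_ifs with h
    · subst h
      have : fl (a i · ≠ 0) (a i) = a i := Finsupp.ext fun j => by simp [fl_apply, eq_comm]
      have h0 : ‖sy P (a i)‖ ≠ 0 := by linarith [a3 i]
      simp [co, this, f2, h0]
    · exact c1 _ _ fun k hk => by_contra fun h' =>
        Set.disjoint_left.1 (b4 h) (a1 _ _ h') (a1 _ _ hk)
  have c3 : ∀ i v, ‖co i v • sy P (a i)‖ ≤ ‖sy P (fl (a i · ≠ 0) v)‖ := fun i v => by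
    have h0 : ‖sy P (a i)‖ ≠ 0 := by linarith [a3 i]
    have := (f i).le_of_opNorm_le (f1 i) (sy P (fl (a i · ≠ 0) v))
    rw [norm_smul]
    simpa [co, h0, mul_right_comm] using this
  let q : V →ₗ[ℝ] V := ∑ i, (co i).smulRight (a i)
  have q0 : ∀ v, q v = ∑ i, co i v • a i := fun v => by simp [q]
  have q1 : ∀ j, q (a j) = a j := fun j => by simp [q0, c2]
  obtain ⟨δ, δ1, δ2, δ3⟩ : ∃ δ : ℝ, 0 < δ ∧ δ ≤ s.δ / 2 ∧ (∑ i, ‖Y i‖) * δ ≤ η :=
    ⟨min (s.δ / 2) (η / (∑ i, ‖Y i‖ + 1)), by positivity, min_le_left _ _, by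
      have := (le_div_iff₀ (by positivity)).1 (min_le_right (s.δ / 2) (η / (∑ i, ‖Y i‖ + 1)))
      have : 0 < min (s.δ / 2) (η / (∑ i, ‖Y i‖ + 1)) := by positivity
      linarith⟩
  have b8 := b1.trans (min_le_right _ _)
  let T := insert i0 (s.S ∪ univ.biUnion fun i => (a i).support)
  have hT : ∀ i j, a i j ≠ 0 → j ∈ T ∧ s.R ≤ j.1 := fun i j h =>
    ⟨by simp only [T, mem_insert, mem_union, mem_biUnion, Finsupp.mem_support_iff]; grind,
      (b3 i (a1 i j h)).1⟩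
  refine ⟨⟨ψ, δ, T, max (max s.R R) (i0.1 + 1), Finsupp.supported ℝ ℝ ↑(T \ s.S) ⊓ LinearMap.ker q,
    δ1, ?_, fun i hi => ?_, fun c hc i hi => (mem_sdiff.1 (hc.1 (by simpa using hi))).1⟩,
    univ.image l, q, show ‖ψ - s.ψ‖ + δ ≤ s.δ by linarith, δ2, fun i hi => by simp [T, hi], mem_insert_self _ _,
    le_max_of_le_left (le_max_left _ _), univ_nonempty.image _, fun v j hj => ?_, fun v hv => ?_,
    fun v => ?_, fun v => ?_, fun c => ?_, fun u hu => ?_⟩
  · linarith [s.h2, norm_sub_norm_le s.ψ ψ, norm_sub_rev s.ψ ψ]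
  · simp only [T, mem_insert, mem_union, mem_biUnion, Finsupp.mem_support_iff] at hi
    rcases hi with rfl | h | ⟨j, -, h⟩
    · omega
    · have := s.h3 i h; omega
    · have := (b3 j (a1 j i h)).2; omega
  · rw [q0, Finsupp.finset_sum_apply] at hj
    obtain ⟨i, -, hi⟩ := exists_ne_zero_of_sum_ne_zero hj
    exact hT i j (right_ne_zero_of_mul hi)
  · rw [q0]
    refine sum_eq_zero fun i _ => ?_
    rw [c1 i v fun j hj => by_contra fun h => ?_, zero_smul]
    rcases hv j hj with h' | h'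
    exacts [h' (hT i j h).1, h'.not_ge (hT i j h).2]
  · rw [q0 v, map_sum]
    simp only [map_smul, q1]
  · rw [q0, map_sum]
    refine locs hp C0 hC _ (fun i => sy_sup fun j hj => a1 i j (right_ne_zero_of_mul hj)) b4 v C0.le
      fun i _ => ?_
    rw [map_smul]
    refine (c3 i v).trans (le_of_eq_of_le ?_ (hC _ (a i · ≠ 0)))
    congr 2
    ext j
    by_cases h : a i j = 0 <;> simp [fl_apply, h, a1 i j]
  · simp [Finsupp.mem_supported, Set.subset_def]
  have h3 : Submodule.span ℝ (Set.range (Sum.elim h fun i => sy P (a i))) =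
      (s.C ⊔ LinearMap.range q).map (sy P) := by
    rw [Set.Sum.elim_range, Submodule.span_union, h1, Submodule.map_sup]
    congr 1
    refine le_antisymm (Submodule.span_le.2 (Set.range_subset_iff.2 fun i =>
      ⟨a i, ⟨a i, q1 i⟩, rfl⟩)) ?_
    rintro _ ⟨_, ⟨v, rfl⟩, rfl⟩
    simp only [q0, map_sum, map_smul]
    exact sum_mem fun i _ => Submodule.smul_mem _ _ (Submodule.subset_span ⟨i, rfl⟩)
  rw [coe_image, coe_univ, Set.image_univ, ← Set.range_comp, ← b6, ← h3, ← hη]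
  refine close_of _ _ (by positivity) (fun b i => ?_) ?_
  · obtain ⟨c, hc, h4⟩ : ∑ j, b (.inl j) • h j ∈ s.C.map (sy P) :=
      h1 ▸ sum_mem fun j _ => Submodule.smul_mem _ _ (Submodule.subset_span ⟨j, rfl⟩)
    have h5 : ∑ j, b j • Sum.elim h (fun i => sy P (a i)) j = sy P (c + ∑ j, b (.inr j) • a j) := by
      simp [Fintype.sum_sum_type, h4]
    have h6 := norm_nonneg (sy P (c + ∑ j, b (.inr j) • a j))
    rw [h5, add_mul]
    rcases i with i | i
    · have h7 := hC (c + ∑ j, b (.inr j) • a j) (·.1 < s.R)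
      rw [show fl (·.1 < s.R) (c + ∑ j, b (.inr j) • a j) = c from Finsupp.ext fun j => ?_, h4] at h7
      · exact ((h2 (fun j => b (.inl j)) i).trans ((mul_le_mul_of_nonneg_left h7 κ0).trans_eq
          (mul_assoc _ _ _).symm)).trans (le_add_of_nonneg_right (by positivity))
      rw [fl_apply]
      split_ifs with h8
      · rw [Finsupp.add_apply, Finsupp.finset_sum_apply, sum_eq_zero fun i _ => ?_, add_zero]
        exact mul_eq_zero_of_right _ (by_contra fun h => h8.not_ge (hT i j h).2)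
      · exact (by_contra fun h => h8 (s.h3 j (s.h4 c hc j h)) : c j = 0).symm
    · have h7 := (c3 i (c + ∑ j, b (.inr j) • a j)).trans (hC _ _)
      rw [map_add, c1 i c fun j hj => by_contra fun h =>
        (s.h3 j (s.h4 c hc j hj)).not_ge (hT i j h).2, norm_smul] at h7
      simp only [map_sum (co i), map_smul, c2, zero_add, smul_eq_mul, mul_ite, mul_one, mul_zero,
        sum_ite_eq, mem_univ, if_true, norm_eq_abs] at h7
      refine le_add_of_nonneg_of_le (by positivity) ?_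
      nlinarith [a3 i, abs_nonneg (b (.inr i))]
  · refine (sum_le_sum (g := fun i => ‖Y i‖ * δ + (‖Y i (fun j => tau P (l j) ψ) - Sum.elim h d i‖ +
      ‖Sum.elim h d i - Sum.elim h (fun i => sy P (a i)) i‖)) fun i _ =>
        (norm_sub_le_norm_sub_add_norm_sub _ (Y i fun j => tau P (l j) ψ) _).trans
        (add_le_add ?_ (norm_sub_le_norm_sub_add_norm_sub _ _ _))).trans ?_
    · rw [← map_sub]
      refine (Y i).le_of_opNorm_le_of_le le_rfl ((pi_norm_le_iff_of_nonneg δ1.le).2 fun j => ?_)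
      change ‖tau P _ _ - tau P _ _‖ ≤ _
      rwa [← map_sub, (tau P _).norm_map]
    · have h4 := sum_le_sum fun i (_ : i ∈ univ) => (a2 i).trans (min_le_right _ _)
      rw [sum_const, card_univ, nsmul_eq_mul] at h4
      have h5 : Fintype.card I * (η / (Fintype.card I + 1)) ≤ η := by
        rw [← mul_div_assoc, div_le_iff₀ (by positivity)]; linarith
      rw [sum_add_distrib, sum_add_distrib, ← sum_mul,
        Fintype.sum_sum_type fun i => ‖Sum.elim h d i - _‖]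
      simp only [Sum.elim_inl, Sum.elim_inr, sub_self, norm_zero, sum_const_zero] at b7 ⊢
      linarith [b7.trans (min_le_left _ _)]

end Pool.Agent.H.MP_5d9214_an
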