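import Pool.Agent.H.MP_5d9214_an.G
import Pool.Agent.H.MP_5d9214_an.Defs

namespace Pool.Agent.H.MP_5d9214_an

open Finset Real Filter Topology MeasureTheory Pool.Agent.H.MP_ada34c_an
open scoped ENNReal Classical

lemma enum (L : ℕ → Finset ℝ) (h : ∀ k, (L k).Nonempty) : ∃ (l : ℕ → ℝ) (n : ℕ → ℕ), n 0 = 0 ∧
    StrictMono n ∧ ∀ k, l '' Set.Ico (n k) (n (k + 1)) = L k := by
  let n : ℕ → ℕ := fun k => ∑ j ∈ range k, (L j).card
  have h1 : ∀ k, n (k + 1) = n k + (L k).card := fun k => sum_range_succ _ _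
  have h2 : StrictMono n := strictMono_nat_of_lt_succ fun k => by
    have := (h k).card_pos
    have := h1 k
    omega
  have h3 : ∀ i, ∃ k, i < n (k + 1) := fun i => ⟨i, h2.id_le (i + 1)⟩
  have h4 : ∀ k i, n k ≤ i → i < n (k + 1) → Nat.find (h3 i) = k := fun k i h5 h6 =>
    (Nat.find_eq_iff _).2 ⟨h6, fun j hj => ((h2.monotone hj).trans h5).not_gt⟩
  refine ⟨fun i => (L (Nat.find (h3 i))).toList.getD (i - n (Nat.find (h3 i))) 0, n, rfl, h2,
    fun k => Set.ext fun x => ⟨?_, fun hx => ?_⟩⟩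
  · rintro ⟨i, hi, rfl⟩
    have h5 : i - n k < (L k).toList.length := by
      have := h1 k
      rw [length_toList]; have := hi.1; have := hi.2; omega
    simp only [h4 k i hi.1 hi.2, List.getD_eq_getElem _ _ h5]
    exact mem_toList.1 (List.getElem_mem h5)
  · obtain ⟨i, hi, rfl⟩ := List.getElem_of_mem (mem_toList.2 hx)
    have h5 : n k + i < n (k + 1) := by
      have := h1 k
      rw [length_toList] at hi; omega
    refine ⟨n k + i, ⟨Nat.le_add_right _ _, h5⟩, ?_⟩
    simp only [h4 k _ (Nat.le_add_right _ _) h5, Nat.add_sub_cancel_left, List.getD_eq_getElem _ _ hi]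

variable {P : ℝ≥0∞} [Fact (1 ≤ P)] (hp : 1 < P.toReal)
include hp

theorem main : ∃ (f : XX P) (L : ℕ → Finset ℝ) (C : ℝ), 0 ≤ C ∧ (∀ k, (L k).Nonempty) ∧
    Unc (fun k => Submodule.span ℝ ((fun l => tau P l f) '' L k)) C ∧
    Dense ((⨆ k, Submodule.span ℝ ((fun l => tau P l f) '' L k) : Submodule ℝ (XX P)) :
      Set (XX P)) := by
  obtain ⟨C, C0, hC'⟩ := uncond hp
  have hC : ∀ a q, ‖sy P (fl q a)‖ ≤ C * ‖sy P a‖ := fun a q => hC' a q
  obtain ⟨e, he⟩ := exists_surjective_nat (ℤ × ℕ)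
  obtain ⟨D, hD⟩ : ∃ D, D = C * C * C := ⟨_, rfl⟩
  have D0 : 0 < D := hD ▸ by positivity
  choose nx L q hr using fun k s => step hp C0 hC
    (show 0 < (4 * (D + C * (1 + D)))⁻¹ * (1 / 2) ^ k by positivity) (e k) s
  let s : ℕ → St P := fun k => Nat.rec ⟨T P ((2 : ℝ) • ind P 0 1), 1, ∅, 0, ⊥, one_pos, by
    rw [← rpow_le_rpow_iff (by norm_num) (norm_nonneg _) (show 0 < P.toReal by linarith),
      ind_norm hp zero_le_one]
    norm_num, by simp, by simp⟩ nx k
  have r : ∀ k, Rel C _ (e k) (s k) (s (k + 1)) (L k (s k)) (q k (s k)) := fun k => hr k (s k)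
  have s0 : (s 0).δ = 1 ∧ (s 0).S = ∅ := ⟨rfl, rfl⟩
  generalize s = s at r s0
  obtain ⟨q, hq⟩ : ∃ q', q' = fun k => q k (s k) := ⟨_, rfl⟩
  simp only [← congrFun hq] at r
  have h1 : ∀ k, (s k).δ ≤ 1 * (1 / 2) ^ k := fun k => by
    induction k with
    | zero => simp [s0.1]
    | succ k ih => rw [pow_succ]; linarith [(r k).r2]
  obtain ⟨f, hf⟩ := cauchySeq_tendsto_of_complete (cauchySeq_of_le_geometric (1 / 2) 1 (by norm_num)
    (f := fun k => (s k).ψ) fun k => by
      rw [dist_comm, dist_eq_norm]; linarith [(r k).r1, (s (k + 1)).h1, h1 k])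
  have h2 : ∀ k, ‖f - (s k).ψ‖ ≤ (s k).δ := fun k => by
    have : ∀ m, k ≤ m → ‖(s m).ψ - (s k).ψ‖ + (s m).δ ≤ (s k).δ := fun m hm => by
      induction hm with
      | refl => simp
      | @step m _ ih =>
        linarith [(r m).r1, norm_sub_le_norm_sub_add_norm_sub (s (m + 1)).ψ (s m).ψ (s k).ψ]
    exact le_of_tendsto (hf.sub_const _).norm (eventually_atTop.2
      ⟨k, fun m hm => by linarith [this m hm, (s m).h1]⟩)
  have mS : Monotone fun k => (s k).S := monotone_nat_of_le_succ fun k => (r k).r3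
  have mR : Monotone fun k => (s k).R := monotone_nat_of_le_succ fun k => (r k).r5
  refine ⟨f, _, _, by positivity, fun k => (r k).r6, pert (G := fun k =>
    ((s k).C ⊔ LinearMap.range (q k)).map (sy P)) (fun y hy u t hu => ?_) (by positivity)
    (fun k => (r k).cl f (h2 _)) ((sy_dense hp).mono ?_)⟩
  · choose v hv h3 using hy
    choose c hc d hd h4 using fun k => Submodule.mem_sup.1 (hv k)
    choose d h5 using hd
    have c1 : ∀ k j i, c k i ≠ 0 → j < k → i ∉ (s j).S := fun k j i h hj h' => by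
      obtain ⟨k, rfl⟩ := Nat.exists_eq_succ_of_ne_zero (show k ≠ 0 by omega)
      exact ((((r k).c1 _).1 (hc _)).1 i h).2 (mS (Nat.le_of_lt_succ hj) h')
    have c2 : ∀ j k, q j (c k) = 0 := fun j k => by
      rcases lt_trichotomy k (j + 1) with h | rfl | h
      · exact (r j).q2 _ fun i hi => .inr ((s j).h3 i (mS (Nat.le_of_lt_succ h)
          ((s k).h4 _ (hc k) i hi)))
      · exact (((r j).c1 _).1 (hc _)).2
      · exact (r j).q2 _ fun i hi => .inl (c1 k _ i hi h)
    have c3 : ∀ j k, k ≠ j → q j (q k (d k)) = 0 := fun j k h => (r j).q2 _ fun i hi => by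
      obtain ⟨h6, h7⟩ := (r k).q1 _ i hi
      rcases lt_or_gt_of_ne h with h | h
      · exact .inr ((s j).h3 i (mS h h6))
      · exact .inl fun h8 => ((s _).h3 i h8).not_ge ((mR h).trans h7)
    have c4 : ∀ w, w ⊆ t → ‖∑ k ∈ w, sy P (q k (d k))‖ ≤ D * ‖sy P (∑ k ∈ t, v k)‖ := fun w hw => by
      refine (locs hp C0 hC w (J := fun k => Set.Ico (s k).R (s (k + 1)).R) (fun k => sy_sup
        fun i hi => ⟨((r k).q1 _ i hi).2, (s _).h3 i ((r k).q1 _ i hi).1⟩) (fun i j h => ?_)
        _ (K := C * C) (by positivity) fun k hk => ?_).trans (mul_le_mul_of_nonneg_right ?_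
          (norm_nonneg _))
      · rcases lt_or_gt_of_ne h with h | h
        · exact Set.Ico_disjoint_Ico.2 ((min_le_left _ _).trans (le_max_of_le_right (mR h)))
        · exact Set.Ico_disjoint_Ico.2 ((min_le_right _ _).trans (le_max_of_le_left (mR h)))
      · refine le_of_eq_of_le ?_ ((r k).q4 _)
        congr 2
        refine Eq.trans ?_ (sub_eq_zero.1 ((map_sub _ (∑ k ∈ t, v k) _).symm.trans ((r k).q2 _ fun i hi => ?_)))
        · rw [map_sum, sum_eq_single_of_mem k (hw hk) fun j _ hj => by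
            rw [← h4, ← h5, map_add, c2, c3 _ _ hj, add_zero], ← h4, ← h5, map_add, c2, zero_add,
            (r k).q3]
        · by_contra! h
          rw [Finsupp.sub_apply, fl_apply, if_pos ⟨h.2, (s _).h3 i h.1⟩] at hi
          exact hi (sub_self _)
      · exact hD.ge
    have c5 : ∀ w, ∑ k ∈ w, y k = sy P (∑ k ∈ w, c k) + ∑ k ∈ w, sy P (q k (d k)) := fun w => by
      simp only [← h3, ← h4, ← h5, map_add, map_sum, sum_add_distrib]
    have c6 := hC (∑ k ∈ t, c k) fun i => ∃ k ∈ u, c k i ≠ 0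
    rw [show fl (fun i => ∃ k ∈ u, c k i ≠ 0) (∑ k ∈ t, c k) = ∑ k ∈ u, c k from
      Finsupp.ext fun i => ?_] at c6
    · have c7 := c4 t subset_rfl
      have c8 := c4 u hu
      have c9 : sy P (∑ k ∈ t, v k) = ∑ k ∈ t, y k := by simp only [map_sum, h3]
      rw [c9] at c7 c8
      have c10 := norm_sub_le (∑ k ∈ t, y k) (∑ k ∈ t, sy P (q k (d k)))
      rw [← eq_sub_of_add_eq (c5 t).symm] at c10
      rw [c5 u]
      refine (norm_add_le _ _).trans ?_
      nlinarith
    rw [fl_apply, Finsupp.finset_sum_apply, Finsupp.finset_sum_apply]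
    split_ifs with h
    · obtain ⟨k, h6, h7⟩ := h
      have h8 : ∀ j, j ≠ k → c j i = 0 := fun j hj => by_contra fun h => by
        rcases lt_or_gt_of_ne hj with h9 | h9
        · exact c1 k j i h7 h9 ((s j).h4 _ (hc j) i h)
        · exact c1 j k i h h9 ((s k).h4 _ (hc k) i h7)
      rw [sum_eq_single_of_mem k (hu h6) fun j _ => h8 j, sum_eq_single_of_mem k h6 fun j _ => h8 j]
    · exact (sum_eq_zero fun k hk => by_contra fun h' => h ⟨k, hk, h'⟩).symm
  · rintro _ ⟨a, rfl⟩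
    induction a using Finsupp.induction_linear with
    | zero => rw [map_zero]; exact zero_mem _
    | add a b h h' => rw [map_add]; exact add_mem h h'
    | single i x =>
      have h3 : ∃ k, i ∈ (s (k + 1)).S := by
        obtain ⟨k, rfl⟩ := he i
        exact ⟨k, (r k).r4⟩
      obtain ⟨k, h4, h5⟩ : ∃ k, i ∈ (s (k + 1)).S ∧ i ∉ (s k).S := ⟨_, Nat.find_spec h3, by
        rcases h : Nat.find h3 with _ | k
        · simp [s0.2]
        · exact Nat.find_min h3 (by omega)⟩
      rw [← sub_add_cancel (Finsupp.single i x) (q k (Finsupp.single i x)), map_add]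
      refine add_mem (Submodule.mem_iSup_of_mem (k + 1) ⟨_, Submodule.mem_sup_left
        (((r k).c1 _).2 ⟨fun j hj => ?_, by rw [map_sub, (r k).q3, sub_self]⟩), rfl⟩)
        (Submodule.mem_iSup_of_mem k ⟨_, Submodule.mem_sup_right ⟨_, rfl⟩, rfl⟩)
      by_cases h : q k (Finsupp.single i x) j = 0
      · rw [Finsupp.sub_apply, h, sub_zero] at hj
        obtain rfl := (Finsupp.single_apply_ne_zero.1 hj).1
        exact ⟨h4, h5⟩
      · obtain ⟨h6, h7⟩ := (r k).q1 _ j h
        exact ⟨h6, fun h8 => ((s k).h3 j h8).not_ge h7⟩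

end Pool.Agent.H.MP_5d9214_an
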